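import Pool.Agent.GG.Kd.Ev

/-!
# GG Kd Chn: the chain rule at a point with `J ≠ 0`, and the comparison of two systems of local coordinates
-/

set_option autoImplicit false

open MvPolynomial
open Pool.Agent.H23 (dualDer dualDer_coord fc)
open Pool.Agent.H23.Fano (Form)

noncomputable section

namespace Pool.Agent.GG.Kd

variable {K : Type} [Field K] [Algebra ℂ K] {r r' k : ℕ}

/-- the chain rule for a derivation -/
theorem der_aeval (D : Derivation ℂ K K) (y : Fin r → K) (G : MvPolynomial (Fin r) ℂ) :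
    D (aeval y G) = ∑ l, aeval y (pderiv l G) * D (y l) := by
  classical
  induction G using MvPolynomial.induction_on with
  | C c => simp
  | add p q hp hq =>
    rw [map_add, map_add, hp, hq, ← Finset.sum_add_distrib]
    refine Finset.sum_congr rfl fun l _ => ?_
    rw [map_add, map_add]
    ring
  | mul_X p i hp =>
    rw [map_mul, aeval_X, Derivation.leibniz, hp, smul_eq_mul, smul_eq_mul]
    have h1 : ∀ l, aeval y (pderiv l (p * X i)) * D (y l) =
        y i * (aeval y (pderiv l p) * D (y l)) + aeval y p * (aeval y (pderiv l (X i : MvPolynomial (Fin r) ℂ)) * D (y l)) := by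
      intro l
      rw [Derivation.leibniz, map_add, smul_eq_mul, smul_eq_mul, map_mul, map_mul, aeval_X]
      ring
    simp only [h1, Finset.sum_add_distrib, ← Finset.mul_sum]
    rw [Finset.sum_eq_single (s := Finset.univ) (f := fun l => aeval y (pderiv l (X i : MvPolynomial (Fin r) ℂ)) * D (y l)) i]
    · rw [pderiv_X_self, map_one, one_mul]
      ring
    · intro j _ hj
      rw [pderiv_X_of_ne (Ne.symm hj), map_zero, zero_mul]
    · intro h
      exact absurd (Finset.mem_univ i) h

/-- the differential of `t j` -/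
def Dat.tau {y : Fin r → K} (d : Dat y k) (v : Fin r → ℂ) (j : Fin k) : ℂ := ∑ i, d.L j i * v i

theorem dpl_lf (w v l : Fin r → ℂ) : dpl w v (lf l) = ∑ i, l i * v i := by
  unfold dpl
  refine Finset.sum_congr rfl fun i _ => ?_
  rw [pderiv_lf, eval_C]

section Chain

variable {y : Fin r → K} {w : Fin r → ℂ}

private theorem chn_gamma (d : Dat y k) {b : Module.Basis (Fin k) K Ω[K⁄ℂ]} (hb : ∀ j, b j = KaehlerDifferential.D ℂ K (d.t j)) (i : Fin r) :
    ∃ γ : Fin k → ℂ, (∀ j, dualDer b j (aeval y (d.G i)) = algebraMap ℂ K (γ j)) ∧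
      ∀ v ∈ tan y w, dpl w v (d.G i) = ∑ j, γ j * d.tau v j := by
  classical
  rcases d.hG i with ⟨j₀, h⟩ | h
  · refine ⟨fun j => if j = j₀ then 1 else 0, fun j => ?_, fun v _ => ?_⟩
    · rw [h]
      have h1 := dualDer_coord b hb j j₀
      rw [show aeval y (lf (d.L j₀)) = d.t j₀ from rfl]
      refine h1.trans ?_
      by_cases hj : j = j₀
      · simp [hj]
      · simp [hj]
    · rw [h, dpl_lf]
      simp [Dat.tau]
  · refine ⟨fun _ => 0, fun j => ?_, fun v hv => ?_⟩
    · rw [h, map_zero, map_zero]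
    · rw [show dpl w v (d.G i) = 0 from hv _ h]
      simp

/-- The differentials of the generic coordinates at a point with `J ≠ 0`. -/
private theorem chn_coord (d : Dat y k) (hw : IsPt y w) (hJ : eval w d.J ≠ 0) {b : Module.Basis (Fin k) K Ω[K⁄ℂ]}
    (hb : ∀ j, b j = KaehlerDifferential.D ℂ K (d.t j)) :
    ∃ e : Fin r → Fin k → ℂ, (∀ l j, Ev y w (dualDer b j (y l)) (e l j)) ∧ ∀ v ∈ tan y w, ∀ l, v l = ∑ j, e l j * d.tau v j := by
  classical
  choose γ hγ hγ' using fun i => chn_gamma (w := w) d hb i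
  have hwB : IsPtB y w := isPtB_iff.2 hw
  set PM : Matrix (Fin r) (Fin r) (MvPolynomial (Fin r) ℂ) := fun i l => pderiv l (d.G i) with hPM
  have hdet : PM.det = d.J := rfl
  set My : Matrix (Fin r) (Fin r) K := fun i l => aeval y (PM i l) with hMy
  set Mw : Matrix (Fin r) (Fin r) ℂ := fun i l => eval w (PM i l) with hMw
  have hMydet : My.det = aeval y d.J := by
    rw [← hdet]
    exact ((aeval y : MvPolynomial (Fin r) ℂ →ₐ[ℂ] K).toRingHom.map_det PM).symm
  have hMwdet : Mw.det = eval w d.J := by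
    rw [← hdet]
    exact ((eval w).map_det PM).symm
  have hMyadj : ∀ i j, My.adjugate i j = aeval y (PM.adjugate i j) := fun i j =>
    (congrFun (congrFun ((aeval y : MvPolynomial (Fin r) ℂ →ₐ[ℂ] K).toRingHom.map_adjugate PM) i) j).symm
  have hMwadj : ∀ i j, Mw.adjugate i j = eval w (PM.adjugate i j) := fun i j =>
    (congrFun (congrFun ((eval w).map_adjugate PM) i) j).symm
  have hJy : aeval y d.J ≠ 0 := by
    intro h
    exact hJ (hw _ h)
  refine ⟨fun l j => (∑ i, eval w (PM.adjugate l i) * γ i j) * (eval w d.J)⁻¹, fun l j => ?_, fun v hv l => ?_⟩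
  · -- the derivative of `y l`
    have h1 : My.mulVec (fun l => dualDer b j (y l)) = fun i => algebraMap ℂ K (γ i j) := by
      funext i
      rw [← hγ i j, der_aeval]
      rfl
    have h2 : My.det * dualDer b j (y l) = ∑ i, My.adjugate l i * algebraMap ℂ K (γ i j) := by
      have h3 := congrArg (fun u => My.adjugate.mulVec u) h1
      simp only [Matrix.mulVec_mulVec, Matrix.adjugate_mul] at h3
      have h4 := congrFun h3 l
      rw [Matrix.smul_mulVec, Matrix.one_mulVec] at h4
      exact h4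
    have h5 : dualDer b j (y l) = (∑ i, aeval y (PM.adjugate l i) * algebraMap ℂ K (γ i j)) / aeval y d.J := by
      rw [eq_div_iff hJy, ← hMydet, mul_comm, h2]
      exact Finset.sum_congr rfl fun i _ => by rw [hMyadj]
    rw [h5]
    refine Ev.div hwB (Ev.sum _ fun i _ => ?_) ?_ (mul_inv_cancel₀ hJ)
    · have h6 := (Ev.poly y w (PM.adjugate l i)).mul (Ev.const y w (γ i j))
      rw [MvPolynomial.aeval_eq_eval] at h6
      exact h6
    · have h6 := Ev.poly y w d.J
      rw [MvPolynomial.aeval_eq_eval] at h6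
      exact h6
  · have h1 : Mw.mulVec v = fun i => ∑ j, γ i j * d.tau v j := by
      funext i
      rw [← hγ' i v hv]
      rfl
    have h2 : Mw.det * v l = ∑ i, Mw.adjugate l i * ∑ j, γ i j * d.tau v j := by
      have h3 := congrArg (fun u => Mw.adjugate.mulVec u) h1
      simp only [Matrix.mulVec_mulVec, Matrix.adjugate_mul] at h3
      have h4 := congrFun h3 l
      rw [Matrix.smul_mulVec, Matrix.one_mulVec] at h4
      exact h4
    have h3 : v l = (∑ i, Mw.adjugate l i * ∑ j, γ i j * d.tau v j) * (eval w d.J)⁻¹ := by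
      rw [← h2, hMwdet]
      field_simp
    rw [h3, Finset.sum_mul]
    simp only [Finset.mul_sum, Finset.sum_mul]
    rw [Finset.sum_comm]
    refine Finset.sum_congr rfl fun j _ => Finset.sum_congr rfl fun i _ => ?_
    rw [hMwadj]
    ring

/-- **The chain rule** for the function `f`, regular at `w`. -/
theorem Dat.chain (d : Dat y k) (hw : IsPt y w) (hJ : eval w d.J ≠ 0) {b : Module.Basis (Fin k) K Ω[K⁄ℂ]}
    (hb : ∀ j, b j = KaehlerDifferential.D ℂ K (d.t j)) {f : K} {c₀ : ℂ} (hf : Ev y w f c₀) :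
    ∃ e : Fin k → ℂ, (∀ j, Ev y w (dualDer b j f) (e j)) ∧
      ∀ v ∈ tan y w, ∀ c : DualNumber ℂ, Ev y (dp w v) f c → c.snd = ∑ j, e j * d.tau v j := by
  classical
  obtain ⟨e0, he0, he0'⟩ := chn_coord d hw hJ hb
  have hwB : IsPtB y w := isPtB_iff.2 hw
  -- polynomials
  have hpoly : ∀ A : MvPolynomial (Fin r) ℂ, ∃ a : Fin k → ℂ, (∀ j, Ev y w (dualDer b j (aeval y A)) (a j)) ∧
      ∀ v ∈ tan y w, dpl w v A = ∑ j, a j * d.tau v j := by
    intro A
    refine ⟨fun j => ∑ l, eval w (pderiv l A) * e0 l j, fun j => ?_, fun v hv => ?_⟩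
    · rw [der_aeval]
      refine Ev.sum _ fun l _ => Ev.mul ?_ (he0 l j)
      have h6 := Ev.poly y w (pderiv l A)
      rw [MvPolynomial.aeval_eq_eval] at h6
      exact h6
    · unfold dpl
      have h1 : ∀ l, eval w (pderiv l A) * v l = ∑ j, eval w (pderiv l A) * e0 l j * d.tau v j := by
        intro l
        rw [he0' v hv l, Finset.mul_sum]
        exact Finset.sum_congr rfl fun j _ => by ring
      simp only [h1]
      rw [Finset.sum_comm]
      exact Finset.sum_congr rfl fun j _ => by rw [Finset.sum_mul]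
  obtain ⟨A, D, hD, h1, h2⟩ := id hf
  rw [MvPolynomial.aeval_eq_eval] at hD h2
  have hDw : eval w D ≠ 0 := hD.ne_zero
  have hDy : aeval y D ≠ 0 := fun h => hDw (hw _ h)
  obtain ⟨a, ha, ha'⟩ := hpoly A
  obtain ⟨δ, hδ, hδ'⟩ := hpoly D
  refine ⟨fun j => (a j - c₀ * δ j) * (eval w D)⁻¹, fun j => ?_, fun v hv c hc => ?_⟩
  · have h3 : dualDer b j f = (dualDer b j (aeval y A) - f * dualDer b j (aeval y D)) / aeval y D := by
      rw [eq_div_iff hDy, ← h1, Derivation.leibniz, smul_eq_mul, smul_eq_mul]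
      ring
    rw [h3]
    refine Ev.div hwB ((ha j).sub (hf.mul (hδ j))) ?_ (mul_inv_cancel₀ hDw)
    have h6 := Ev.poly y w D
    rw [MvPolynomial.aeval_eq_eval] at h6
    exact h6
  · have hdp : IsPtB y (dp w v) := isPtB_dp.2 ⟨hw, hv⟩
    have h3 : c * aeval (dp w v) D = aeval (dp w v) A := by
      have h4 := hc.mul (Ev.poly y (dp w v) D)
      rw [h1] at h4
      exact h4.unique hdp (Ev.poly y (dp w v) A)
    have h5 : c.fst = c₀ := hc.fst.unique hwB hf
    have h6 := congrArg TrivSqZeroExt.snd h3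
    rw [TrivSqZeroExt.snd_mul, fst_aeval_dp, snd_aeval_dp, snd_aeval_dp, h5] at h6
    simp only [smul_eq_mul, MulOpposite.smul_eq_mul_unop, MulOpposite.unop_op] at h6
    rw [ha' v hv, hδ' v hv] at h6
    have h7 : c.snd = (∑ j, a j * d.tau v j - c₀ * ∑ j, δ j * d.tau v j) * (eval w D)⁻¹ := by
      rw [← h6]
      field_simp
      ring
    rw [h7, Finset.mul_sum, ← Finset.sum_sub_distrib, Finset.sum_mul]
    exact Finset.sum_congr rfl fun j _ => by ring

end Chain

/-- Comparison of the coefficients of a form. -/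
theorem form_change {t t' : Fin k → K} {b : Module.Basis (Fin k) K Ω[K⁄ℂ]} (hb : ∀ j, b j = KaehlerDifferential.D ℂ K (t j)) {W W' : K}
    (h : (Form.mk W t : Form K k) = Form.mk W' t') : W = W' * (Matrix.of fun i j => dualDer b i (t' j)).det := by
  have h1 : fc b (Form.mk W t) = W := by
    have h2 : (Form.mk W t : Form K k) = W • exteriorPower.ιMulti K k (fun i => b i) := by
      have h3 : (fun i => b i) = fun i => Pool.Agent.H23.Fano.d (t i) := funext hb
      rw [h3]
      rfl
    rw [h2, map_smul, Pool.Agent.H23.fc_self, smul_eq_mul, mul_one]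
  have h4 : fc b (Form.mk W' t') = W' * (Matrix.of fun i j => dualDer b i (t' j)).det := by
    have h2 : (Form.mk W' t' : Form K k) = W' • exteriorPower.ιMulti K k (fun i => KaehlerDifferential.D ℂ K (t' i)) := rfl
    rw [h2, map_smul, Pool.Agent.H23.fc_ιMulti, smul_eq_mul, Module.Basis.det_apply]
    rfl
  rw [← h1, h, h4]

/-- **Comparison.** -/
theorem Dat.compare {y : Fin r → K} {w : Fin r → ℂ} (d : Dat y k) (hw : IsPt y w) (hJ : eval w d.J ≠ 0) {y' : Fin r' → K} {w' : Fin r' → ℂ}
    (d' : Dat y' k) (h0 : ∀ i, Ev y w (y' i) (w' i)) {v : Fin k → Fin r → ℂ} {v' : Fin k → Fin r' → ℂ} (hv : ∀ l, v l ∈ tan y w)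
    (h : ∀ l i, Ev y (dp w (v l)) (y' i) (dp w' (v' l) i)) {M : ℕ} {H H' φ W W' : K} (hH : H' = φ * H)
    (hW : (Form.mk W d.t : Form K k) = Form.mk W' d'.t) {c c' φw : ℂ} (hc : Ev y w (H * W ^ M) c) (hc' : Ev y' w' (H' * W' ^ M) c')
    (hφ : Ev y w φ φw) :
    φw * (c * (Matrix.of fun l j => d.tau (v l) j).det ^ M) = c' * (Matrix.of fun l j => d'.tau (v' l) j).det ^ M := by
  classical
  have hwB : IsPtB y w := isPtB_iff.2 hw
  obtain ⟨b, hb⟩ := Pool.Agent.H23.exists_basis_kaehler d.basis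
  have hb' : ∀ j, b j = KaehlerDifferential.D ℂ K (d.t j) := hb
  have hD := form_change hb' hW
  -- values of the derivatives of the new coordinates
  have h1 : ∀ j : Fin k, ∃ e : Fin k → ℂ, (∀ i, Ev y w (dualDer b i (d'.t j)) (e i)) ∧
      ∀ v ∈ tan y w, ∀ c : DualNumber ℂ, Ev y (dp w v) (d'.t j) c → c.snd = ∑ i, e i * d.tau v i := fun j =>
    d.chain hw hJ hb' (Ev.aeval h0 (lf (d'.L j)))
  choose e he he' using h1
  have h2 : Ev y w (Matrix.of fun i j => dualDer b i (d'.t j)).det (Matrix.of fun i j => e j i).det := Ev.det fun i j => he j i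
  have h3 : (Matrix.of fun l j => d'.tau (v' l) j) = (Matrix.of fun l j => d.tau (v l) j) * (Matrix.of fun i j => e j i) := by
    ext l j
    rw [Matrix.mul_apply]
    have h4 := he' j (v l) (hv l) _ (Ev.aeval (h l) (lf (d'.L j)))
    rw [snd_aeval_dp, dpl_lf] at h4
    rw [Matrix.of_apply]
    show (∑ i, d'.L j i * v' l i) = _
    rw [h4]
    exact Finset.sum_congr rfl fun i _ => by rw [Matrix.of_apply, Matrix.of_apply]; ring
  rw [h3, Matrix.det_mul]
  have h5 : φ * (H * W ^ M) = H' * W' ^ M * (Matrix.of fun i j => dualDer b i (d'.t j)).det ^ M := by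
    rw [hH, hD]
    ring
  have h6 : φw * c = c' * (Matrix.of fun i j => e j i).det ^ M := by
    have h7 := hφ.mul hc
    rw [h5] at h7
    exact h7.unique hwB ((hc'.change hwB h0).mul (h2.pow M))
  rw [← mul_assoc, h6]
  ring

end Pool.Agent.GG.Kd
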