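import Pool.Agent.H23.Omega
import Pool.Agent.H23.Forms
import Pool.Agent.H17LG.Variety

/-!
# GG Kd Defs: affine varieties given by a generic point, linear Noether normalisations

`K` is a field over `ℂ` (the function field), `y : Fin r → K` the generic point of an affine variety `V` in `ℂ^r`, `k` the transcendence degree of `K`.

`Dat y k` (a linear Noether normalisation with equations): `t j` are linear forms in `y`, a transcendence basis, all `y i` are integral over `ℂ[t]`; `G i`,
`i = 1, …, r`, are polynomials each of which is one of the linear forms `t j` or vanishes on `V`; `J = det (∂ G i / ∂ Y j)`.  At the points of `V` with `J ≠ 0`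
the functions `t j` are local coordinates of `V`.
-/

set_option autoImplicit false

open MvPolynomial

noncomputable section

namespace Pool.Agent.GG.Kd

variable {K : Type} [Field K] [Algebra ℂ K] {r k : ℕ}

/-- `w` is a point of the affine variety with the generic point `y`. -/
def IsPt (y : Fin r → K) (w : Fin r → ℂ) : Prop := ∀ G : MvPolynomial (Fin r) ℂ, aeval y G = 0 → eval w G = 0

/-- the tangent space at the point `w` -/
def tan (y : Fin r → K) (w : Fin r → ℂ) : Submodule ℂ (Fin r → ℂ) where
  carrier := {v | ∀ G : MvPolynomial (Fin r) ℂ, aeval y G = 0 → ∑ j, eval w (pderiv j G) * v j = 0}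
  add_mem' := by
    intro a b ha hb G hG
    simp only [Pi.add_apply, mul_add, Finset.sum_add_distrib]
    rw [ha G hG, hb G hG, add_zero]
  zero_mem' := by
    intro G _
    simp
  smul_mem' := by
    intro c a ha G hG
    have h1 : ∀ j, eval w (pderiv j G) * (c • a) j = c * (eval w (pderiv j G) * a j) := fun j => by
      simp only [Pi.smul_apply, smul_eq_mul]
      ring
    simp only [h1, ← Finset.mul_sum]
    rw [ha G hG, mul_zero]

/-- the linear form with the coefficients `l` -/
def lf (l : Fin r → ℂ) : MvPolynomial (Fin r) ℂ := ∑ i, C (l i) * X i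

theorem eval_lf (l w : Fin r → ℂ) : eval w (lf l) = ∑ i, l i * w i := by
  simp [lf]

theorem aeval_lf (l : Fin r → ℂ) (y : Fin r → K) : aeval y (lf l) = ∑ i, l i • y i := by
  simp [lf, Algebra.smul_def]

theorem pderiv_lf (l : Fin r → ℂ) (j : Fin r) : pderiv j (lf l) = C (l j) := by
  classical
  rw [lf, map_sum, Finset.sum_eq_single j]
  · rw [Derivation.leibniz, pderiv_C, pderiv_X_self]
    simp
  · intro i _ hij
    rw [Derivation.leibniz, pderiv_C, pderiv_X_of_ne hij]
    simp
  · intro h
    exact absurd (Finset.mem_univ j) h

/-- A linear Noether normalisation with equations. -/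
structure Dat (y : Fin r → K) (k : ℕ) where
  /-- the coefficients of the linear forms -/
  L : Fin k → Fin r → ℂ
  basis : IsTranscendenceBasis ℂ fun j => aeval y (lf (L j))
  int : ∀ i, IsIntegral (Algebra.adjoin ℂ (Set.range fun j => aeval y (lf (L j)))) (y i)
  /-- the equations -/
  G : Fin r → MvPolynomial (Fin r) ℂ
  hG : ∀ i, (∃ j, G i = lf (L j)) ∨ aeval y (G i) = 0

/-- the coordinate functions -/
def Dat.t {y : Fin r → K} (d : Dat y k) (j : Fin k) : K := aeval y (lf (d.L j))

/-- the Jacobian determinant -/
def Dat.J {y : Fin r → K} (d : Dat y k) : MvPolynomial (Fin r) ℂ := Matrix.det fun i j => pderiv j (d.G i)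

end Pool.Agent.GG.Kd
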