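import Pool.Agent.H23.Fano
import Pool.Agent.H62.FC.Place

/-!
# GG Kd Int: an element which is regular along all prime divisors over `Spec ℂ[t]` is integral over `ℂ[t]`

For every `i` the integral closure of `k[t i]`, `k = ℂ(t j : j ≠ i)`, in `K` is a Dedekind domain (finite extension of a principal ideal domain), and its
height one primes give prime divisors; so `c` is integral over `k[t i]` (`Int_place`), and `E c` is integral over `ℂ[t]` for some `E ≠ 0` which does not
contain the variable `t i` (`Int_clear`).  `Int_ufd`: then `c` is integral over `ℂ[t]` (minimal polynomials, unique factorisation).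
-/

set_option autoImplicit false

open MvPolynomial
open Pool.Agent.H23.Fano (Form regularForms PrimeDivisorOver)

noncomputable section

namespace Pool.Agent.GG.Kd

/-! ## one variable over a field -/

section Val

variable {k K : Type} [Field k] [Field K] [Algebra k K]

private theorem Int_pid (x : K) : IsPrincipalIdealRing (Algebra.adjoin k {x}) := by
  refine IsPrincipalIdealRing.of_surjective
    ((Polynomial.aeval (⟨x, Algebra.self_mem_adjoin_singleton k x⟩ : Algebra.adjoin k {x}) : Polynomial k →ₐ[k] Algebra.adjoin k {x}) :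
      Polynomial k →+* Algebra.adjoin k {x}) fun a => ?_
  obtain ⟨p, hp⟩ : (a : K) ∈ (Polynomial.aeval x : Polynomial k →ₐ[k] K).range := by
    rw [← Algebra.adjoin_singleton_eq_range_aeval]
    exact a.2
  refine ⟨p, Subtype.ext ?_⟩
  have h1 := (Polynomial.aeval_algebraMap_apply K (⟨x, Algebra.self_mem_adjoin_singleton k x⟩ : Algebra.adjoin k {x}) p).symm
  exact h1.trans hp

open scoped IntermediateField.algebraAdjoinAdjoin in
private theorem Int_val [CharZero k] (x : K) (hfin : FiniteDimensional (IntermediateField.adjoin k {x}) K) {c : K}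
    (hc : ¬ IsIntegral (Algebra.adjoin k {x}) c) :
    ∃ ord : AddValuation K (WithTop ℤ), (∃ u, ord u = 1) ∧ (∀ b, IsIntegral (Algebra.adjoin k {x}) b → 0 ≤ ord b) ∧
      (∀ b, 0 ≤ ord b → ∃ b₁ b₂, IsIntegral (Algebra.adjoin k {x}) b₁ ∧ IsIntegral (Algebra.adjoin k {x}) b₂ ∧ ord b₂ = 0 ∧ b * b₂ = b₁) ∧
      ord c < 0 := by
  have hpid : IsPrincipalIdealRing (Algebra.adjoin k {x}) := Int_pid x
  have hded : IsDedekindDomain (Algebra.adjoin k {x}) := inferInstance
  have hcz : CharZero (IntermediateField.adjoin k {x}) := charZero_of_injective_algebraMap (algebraMap k _).injective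
  have hsep : Algebra.IsSeparable (IntermediateField.adjoin k {x}) K :=
    Algebra.IsAlgebraic.isSeparable_of_perfectField
  have hC : IsDedekindDomain (integralClosure (Algebra.adjoin k {x}) K) :=
    integralClosure.isDedekindDomain (Algebra.adjoin k {x}) (IntermediateField.adjoin k {x}) K
  have hfr : IsFractionRing (integralClosure (Algebra.adjoin k {x}) K) K :=
    integralClosure.isFractionRing_of_finite_extension (IntermediateField.adjoin k {x}) K
  obtain ⟨v, hv⟩ : ∃ v : IsDedekindDomain.HeightOneSpectrum (integralClosure (Algebra.adjoin k {x}) K),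
      ¬ v.valuation K c ≤ 1 := by
    by_contra hcon
    push Not at hcon
    obtain ⟨y, hy⟩ := IsDedekindDomain.HeightOneSpectrum.mem_integers_of_valuation_le_one K c hcon
    refine hc ?_
    rw [← hy]
    exact y.2
  have hle : ∀ g : K, IsIntegral (Algebra.adjoin k {x}) g → v.valuation K g ≤ 1 := fun g hg =>
    v.valuation_le_one (K := K) (⟨g, hg⟩ : integralClosure (Algebra.adjoin k {x}) K)
  refine ⟨Pool.Agent.H62.FC.Place_add (v.valuation K), ?_, fun b hb => ?_, fun b hb => ?_, ?_⟩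
  · obtain ⟨π, hπ⟩ := v.valuation_exists_uniformizer K
    refine ⟨π, ?_⟩
    rw [Pool.Agent.H62.FC.Place_add_apply, hπ, Pool.Agent.H62.FC.Place_phi_exp]
    simp
  · rw [Pool.Agent.H62.FC.Place_add_apply, Pool.Agent.H62.FC.Place_phi_nonneg_iff]
    exact hle b hb
  · rw [Pool.Agent.H62.FC.Place_add_apply, Pool.Agent.H62.FC.Place_phi_nonneg_iff] at hb
    obtain ⟨m, d, hmd⟩ := v.exists_primeCompl_mul_eq_of_integer b hb
    refine ⟨(m : K), ((d : integralClosure (Algebra.adjoin k {x}) K) : K), m.2, (d : integralClosure (Algebra.adjoin k {x}) K).2, ?_, hmd⟩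
    have h1 : v.valuation K (algebraMap (integralClosure (Algebra.adjoin k {x}) K) K d) = 1 := v.valuation_eq_one_iff_notMem.2 d.2
    rw [Pool.Agent.H62.FC.Place_add_apply]
    have h2 : v.valuation K ((d : integralClosure (Algebra.adjoin k {x}) K) : K) = 1 := h1
    rw [h2, Pool.Agent.H62.FC.Place_phi_one]
  · rw [Pool.Agent.H62.FC.Place_add_apply]
    refine lt_of_not_ge fun h => hv ?_
    exact Pool.Agent.H62.FC.Place_phi_nonneg_iff.1 h

end Val

/-! ## unique factorisation -/

section Ufd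

variable {A K : Type} [CommRing A] [IsDomain A] [UniqueFactorizationMonoid A] [Field K] [Algebra A K] [FaithfulSMul A K]

private theorem Int_dvd {I : Type} {D U : A} {E : I → A} (hD : D ≠ 0) (hcop : ∀ D' : A, D' ≠ 0 → (∀ i, D' ∣ E i) → IsUnit D')
    (h : ∀ i, D ∣ U * E i) : D ∣ U := by
  obtain ⟨a', b', c', hrel, h1, h2⟩ := UniqueFactorizationMonoid.exists_reduced_factors D hD U
  have hc' : c' ≠ 0 := by
    rintro rfl
    exact hD (by rw [← h1, zero_mul])
  have ha' : a' ≠ 0 := by
    rintro rfl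
    exact hD (by rw [← h1, mul_zero])
  have h3 : ∀ i, a' ∣ E i := by
    intro i
    have h4 := h i
    rw [← h1, ← h2, mul_assoc] at h4
    exact hrel.dvd_of_dvd_mul_left ((mul_dvd_mul_iff_left hc').1 h4)
  obtain ⟨w, hw⟩ := hcop a' ha' h3
  rw [← h1, ← h2, ← hw]
  exact mul_dvd_mul_left c' (w.isUnit.dvd)

private theorem Int_ufd {I : Type} {c : K} {D : A} {E : I → A} (hD : D ≠ 0) (hDc : IsIntegral A (D • c)) (hE : ∀ i, E i ≠ 0)
    (hEc : ∀ i, IsIntegral A (E i • c)) (hcop : ∀ (D' : A) (m : ℕ), D' ≠ 0 → (∀ i, D' ∣ E i ^ m) → IsUnit D') : IsIntegral A c := by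
  have hinj : Function.Injective (algebraMap A K) := FaithfulSMul.algebraMap_injective A K
  obtain ⟨P, hP⟩ : ∃ P, P = minpoly A (D • c) := ⟨_, rfl⟩
  have hmon : P.Monic := hP ▸ minpoly.monic hDc
  have hkey : ∀ (i : I) (j : ℕ), D ^ (P.natDegree - j) ∣ P.coeff j * E i ^ (P.natDegree - j) := by
    intro i j
    have h1 : (minpoly A (D • c)).scaleRoots (E i) = (minpoly A (E i • c)).scaleRoots D := by
      rw [← IsIntegrallyClosed.minpoly_smul (hE i) hDc, ← IsIntegrallyClosed.minpoly_smul hD (hEc i), smul_comm]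
    rw [← hP] at h1
    have h2 : P.natDegree = (minpoly A (E i • c)).natDegree := by
      have := congrArg Polynomial.natDegree h1
      rwa [Polynomial.natDegree_scaleRoots, Polynomial.natDegree_scaleRoots] at this
    have h3 := congrArg (fun q => Polynomial.coeff q j) h1
    simp only [Polynomial.coeff_scaleRoots] at h3
    rw [h3, ← h2]
    exact dvd_mul_left _ _
  have hdvd : ∀ j, D ^ (P.natDegree - j) ∣ P.coeff j := fun j =>
    Int_dvd (pow_ne_zero _ hD) (fun D' h1 h2 => hcop D' _ h1 h2) (fun i => hkey i j)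
  choose q hq using hdvd
  -- the polynomial
  obtain ⟨Q, hQ⟩ : ∃ Q : Polynomial A, Q = Polynomial.X ^ P.natDegree + ∑ j ∈ Finset.range P.natDegree, Polynomial.C (q j) * Polynomial.X ^ j := ⟨_, rfl⟩
  have hQm : Q.Monic := by
    rw [hQ]
    refine Polynomial.monic_X_pow_add ?_
    refine (Polynomial.degree_sum_le _ _).trans_lt ?_
    rw [Finset.sup_lt_iff (by exact WithBot.bot_lt_coe _)]
    intro j hj
    refine (Polynomial.degree_C_mul_X_pow_le _ _).trans_lt ?_
    exact_mod_cast Finset.mem_range.1 hj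
  refine ⟨Q, hQm, ?_⟩
  have h1 : (algebraMap A K D) ^ P.natDegree * Polynomial.aeval c Q = Polynomial.aeval (D • c) P := by
    rw [hQ, map_add, map_sum, map_pow, Polynomial.aeval_X]
    conv_rhs => rw [Polynomial.aeval_eq_sum_range, Finset.sum_range_succ, hmon.coeff_natDegree, one_smul]
    rw [mul_add, add_comm, Finset.mul_sum]
    congr 1
    · refine Finset.sum_congr rfl fun j hj => ?_
      have h2 : P.natDegree = j + (P.natDegree - j) := by
        have := Finset.mem_range.1 hj
        omega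
      rw [map_mul, map_pow, Polynomial.aeval_X, Polynomial.aeval_C, Algebra.smul_def, Algebra.smul_def, hq j, map_mul, map_pow, mul_pow]
      conv_lhs => rw [h2, pow_add]
      ring
    · rw [Algebra.smul_def, mul_pow]
  have h2 : Polynomial.aeval (D • c) P = 0 := hP ▸ minpoly.aeval A (D • c)
  rw [h2] at h1
  have h3 : (algebraMap A K D) ^ P.natDegree ≠ 0 := pow_ne_zero _ ((map_ne_zero_iff _ hinj).2 hD)
  exact (mul_eq_zero.1 h1).resolve_left h3

end Ufd

/-! ## the rings -/

section Main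

variable {K : Type} [Field K] [Algebra ℂ K]

/-- integrality over the image of the polynomial ring -/
private theorem Int_iff {n : ℕ} {t : Fin n → K} (ht : AlgebraicIndependent ℂ t) {b : K} :
    IsIntegral (Algebra.adjoin ℂ (Set.range t)) b ↔ (aeval t : MvPolynomial (Fin n) ℂ →ₐ[ℂ] K).toRingHom.IsIntegralElem b := by
  constructor
  · intro h
    have h1 : (algebraMap (Algebra.adjoin ℂ (Set.range t)) K) =
        (aeval t : MvPolynomial (Fin n) ℂ →ₐ[ℂ] K).toRingHom.comp (ht.aevalEquiv.symm : Algebra.adjoin ℂ (Set.range t) →+* MvPolynomial (Fin n) ℂ) := by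
      ext a
      have h2 := ht.algebraMap_aevalEquiv (ht.aevalEquiv.symm a)
      rw [AlgEquiv.apply_symm_apply] at h2
      exact h2
    have h2 : (algebraMap (Algebra.adjoin ℂ (Set.range t)) K).IsIntegralElem b := h
    rw [h1] at h2
    exact h2.of_comp
  · intro h
    have h1 : (aeval t : MvPolynomial (Fin n) ℂ →ₐ[ℂ] K).toRingHom =
        (algebraMap (Algebra.adjoin ℂ (Set.range t)) K).comp (ht.aevalEquiv : MvPolynomial (Fin n) ℂ →+* Algebra.adjoin ℂ (Set.range t)) :=
      RingHom.ext fun a => (ht.algebraMap_aevalEquiv a).symm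
    rw [h1] at h
    exact h.of_comp

private theorem deg_zero {n : ℕ} {i : Fin n} {p : MvPolynomial (Fin n) ℂ} : degreeOf i p = 0 ↔ i ∉ p.vars := by
  classical
  rw [degreeOf_def, Multiset.count_eq_zero, vars_def, Multiset.mem_toFinset]

/-- the polynomials without the variable `i` -/
private def Mi {n : ℕ} (i : Fin n) : Submonoid (MvPolynomial (Fin n) ℂ) where
  carrier := {E | E ≠ 0 ∧ degreeOf i E = 0}
  one_mem' := ⟨one_ne_zero, by simp [degreeOf_one]⟩
  mul_mem' := fun {a b} ha hb => ⟨mul_ne_zero ha.1 hb.1, by rw [degreeOf_mul_eq ha.1 hb.1, ha.2, hb.2]⟩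

variable {m : ℕ} (t : Fin (m + 1) → K) (i : Fin (m + 1))

/-- the field generated by the other elements -/
private abbrev ki : IntermediateField ℂ K := IntermediateField.adjoin ℂ (Set.range (t ∘ i.succAbove))

/-- the polynomials in `t i` over it -/
private abbrev Ai : Subalgebra (ki t i) K := Algebra.adjoin (ki t i) {t i}

private theorem t_mem (j : Fin (m + 1)) : t j ∈ Ai t i := by
  rcases eq_or_ne j i with rfl | hj
  · exact Algebra.self_mem_adjoin_singleton _ _
  · obtain ⟨l, rfl⟩ := Fin.exists_succAbove_eq hj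
    have h1 : t (i.succAbove l) ∈ ki t i := IntermediateField.subset_adjoin _ _ ⟨l, rfl⟩
    exact (Ai t i).algebraMap_mem ⟨_, h1⟩

private theorem aeval_mem (p : MvPolynomial (Fin (m + 1)) ℂ) : aeval t p ∈ Ai t i := by
  induction p using MvPolynomial.induction_on with
  | C a =>
    rw [aeval_C]
    have h1 : algebraMap ℂ K a ∈ ki t i := (ki t i).algebraMap_mem a
    exact (Ai t i).algebraMap_mem ⟨_, h1⟩
  | add p q hp hq => rw [map_add]; exact (Ai t i).add_mem hp hq
  | mul_X p j hp => rw [map_mul, aeval_X]; exact (Ai t i).mul_mem hp (t_mem t i j)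

/-- polynomials without the variable `i` have values in the field -/
private theorem aeval_mem_ki {p : MvPolynomial (Fin (m + 1)) ℂ} (hp : degreeOf i p = 0) : aeval t p ∈ ki t i := by
  have h1 : p ∈ supported ℂ {j | j ≠ i} := by
    rw [mem_supported]
    intro j hj hji
    rw [hji] at hj
    exact deg_zero.1 hp (Finset.mem_coe.1 hj)
  rw [supported] at h1
  clear hp
  induction h1 using Algebra.adjoin_induction with
  | mem x hx =>
    obtain ⟨j, hj, rfl⟩ := hx
    rw [aeval_X]
    obtain ⟨l, rfl⟩ := Fin.exists_succAbove_eq hj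
    exact IntermediateField.subset_adjoin _ _ ⟨l, rfl⟩
  | algebraMap r => rw [AlgHom.commutes]; exact (ki t i).algebraMap_mem r
  | add x y _ _ hx hy => rw [map_add]; exact (ki t i).add_mem hx hy
  | mul x y _ _ hx hy => rw [map_mul]; exact (ki t i).mul_mem hx hy

/-- the map of the polynomial ring into `Ai` -/
private def toAi : MvPolynomial (Fin (m + 1)) ℂ →+* Ai t i :=
  ((aeval t : MvPolynomial (Fin (m + 1)) ℂ →ₐ[ℂ] K) : MvPolynomial (Fin (m + 1)) ℂ →+* K).codRestrict (Ai t i) (aeval_mem t i)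

private theorem toAi_coe (p : MvPolynomial (Fin (m + 1)) ℂ) : ((toAi t i p : Ai t i) : K) = aeval t p := rfl

private theorem ki_frac {a : K} (ha : a ∈ ki t i) : ∃ E ∈ Mi i, ∃ P : MvPolynomial (Fin (m + 1)) ℂ, aeval t E ≠ 0 ∧ a * aeval t E = aeval t P := by
  obtain ⟨u, hu, w, hw, rfl⟩ := IntermediateField.mem_adjoin_iff_div.1 ha
  have hex : ∀ u ∈ Algebra.adjoin ℂ (Set.range (t ∘ i.succAbove)), ∃ U : MvPolynomial (Fin (m + 1)) ℂ, degreeOf i U = 0 ∧ aeval t U = u := by
    intro u hu
    rw [Algebra.adjoin_range_eq_range_aeval] at hu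
    obtain ⟨U, hU⟩ := hu
    refine ⟨rename i.succAbove U, ?_, ?_⟩
    · rw [deg_zero]
      intro hi
      obtain ⟨l, _, hl⟩ := mem_vars_rename _ _ hi
      exact Fin.succAbove_ne i l hl
    · rw [aeval_rename]
      exact hU
  obtain ⟨U, _, hU⟩ := hex u hu
  obtain ⟨W, hW, hW'⟩ := hex w hw
  rcases eq_or_ne w 0 with h0 | h0
  · refine ⟨1, (Mi i).one_mem, 0, by simp, by simp [h0]⟩
  · have hW0 : W ≠ 0 := by
      rintro rfl
      exact h0 (by rw [← hW', map_zero])
    exact ⟨W, ⟨hW0, hW⟩, U, by rw [hW']; exact h0, by rw [hW', hU, div_mul_cancel₀ _ h0]⟩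

private theorem Ai_loc (ht : AlgebraicIndependent ℂ t) : @IsLocalization _ _ (Mi i) (Ai t i) _ (toAi t i).toAlgebra := by
  let _ : Algebra (MvPolynomial (Fin (m + 1)) ℂ) (Ai t i) := (toAi t i).toAlgebra
  have hinj : Function.Injective (aeval t : MvPolynomial (Fin (m + 1)) ℂ →ₐ[ℂ] K) := ht
  have hne : ∀ E : MvPolynomial (Fin (m + 1)) ℂ, E ≠ 0 → aeval t E ≠ 0 := fun E hE => (map_ne_zero_iff _ hinj).2 hE
  refine ⟨⟨?_, ?_, ?_⟩⟩
  · rintro ⟨E, hE⟩
    have h1 : aeval t E ∈ ki t i := aeval_mem_ki t i hE.2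
    have h2 : (aeval t E)⁻¹ ∈ ki t i := (ki t i).inv_mem h1
    refine IsUnit.of_mul_eq_one (⟨(aeval t E)⁻¹, (Ai t i).algebraMap_mem ⟨_, h2⟩⟩ : Ai t i) (Subtype.ext ?_)
    show aeval t E * (aeval t E)⁻¹ = 1
    exact mul_inv_cancel₀ (hne E hE.1)
  · rintro ⟨z, hz⟩
    have hz' : ∃ E ∈ Mi i, ∃ P : MvPolynomial (Fin (m + 1)) ℂ, z * aeval t E = aeval t P := by
      induction hz using Algebra.adjoin_induction with
      | mem x hx =>
        rw [Set.mem_singleton_iff] at hx
        exact ⟨1, (Mi i).one_mem, X i, by rw [map_one, mul_one, aeval_X, hx]⟩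
      | algebraMap r =>
        obtain ⟨E, hE, P, _, hP⟩ := ki_frac t i r.2
        exact ⟨E, hE, P, hP⟩
      | add x y _ _ hx hy =>
        obtain ⟨E, hE, P, hP⟩ := hx
        obtain ⟨E', hE', P', hP'⟩ := hy
        refine ⟨E * E', (Mi i).mul_mem hE hE', P * E' + P' * E, ?_⟩
        simp only [map_add, map_mul]
        rw [← hP, ← hP']
        ring
      | mul x y _ _ hx hy =>
        obtain ⟨E, hE, P, hP⟩ := hx
        obtain ⟨E', hE', P', hP'⟩ := hy
        refine ⟨E * E', (Mi i).mul_mem hE hE', P * P', ?_⟩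
        simp only [map_mul]
        rw [← hP, ← hP']
        ring
    obtain ⟨E, hE, P, hP⟩ := hz'
    exact ⟨(P, ⟨E, hE⟩), Subtype.ext hP⟩
  · intro x y hxy
    refine ⟨1, ?_⟩
    have h1 : aeval t x = aeval t y := congrArg Subtype.val hxy
    rw [hinj h1]

/-- an element which is integral over `Ai` becomes integral over `ℂ[t]` -/
private theorem Int_clear (ht : AlgebraicIndependent ℂ t) {s : K} (hs : IsIntegral (Ai t i) s) :
    ∃ E ∈ Mi i, (aeval t : MvPolynomial (Fin (m + 1)) ℂ →ₐ[ℂ] K).toRingHom.IsIntegralElem (aeval t E * s) := by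
  let _ : Algebra (MvPolynomial (Fin (m + 1)) ℂ) (Ai t i) := (toAi t i).toAlgebra
  let _ : Algebra (MvPolynomial (Fin (m + 1)) ℂ) K := (aeval t : MvPolynomial (Fin (m + 1)) ℂ →ₐ[ℂ] K).toRingHom.toAlgebra
  have : IsScalarTower (MvPolynomial (Fin (m + 1)) ℂ) (Ai t i) K := IsScalarTower.of_algebraMap_eq fun p => rfl
  have : IsLocalization (Mi i) (Ai t i) := Ai_loc t i ht
  obtain ⟨E, hE⟩ := IsIntegral.exists_multiple_integral_of_isLocalization (Mi i) s hs
  refine ⟨E, E.2, ?_⟩
  have h1 : (E : MvPolynomial (Fin (m + 1)) ℂ) • s = aeval t (E : MvPolynomial (Fin (m + 1)) ℂ) * s := Algebra.smul_def _ _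
  rw [← h1]
  exact hE

private theorem Int_fin (hfin : FiniteDimensional (IntermediateField.adjoin ℂ (Set.range t)) K) :
    FiniteDimensional (IntermediateField.adjoin (ki t i) {t i}) K := by
  have h1 : IntermediateField.adjoin ℂ (Set.range t) ≤ (IntermediateField.adjoin (ki t i) {t i}).restrictScalars ℂ := by
    rw [IntermediateField.adjoin_le_iff]
    rintro _ ⟨j, rfl⟩
    show t j ∈ IntermediateField.adjoin (ki t i) {t i}
    exact IntermediateField.algebra_adjoin_le_adjoin _ _ (t_mem t i j)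
  let ι : IntermediateField.adjoin ℂ (Set.range t) →+* IntermediateField.adjoin (ki t i) {t i} :=
    (algebraMap (IntermediateField.adjoin ℂ (Set.range t)) K).codRestrict (IntermediateField.adjoin (ki t i) {t i}) fun x => h1 x.2
  let _ : Algebra (IntermediateField.adjoin ℂ (Set.range t)) (IntermediateField.adjoin (ki t i) {t i}) := ι.toAlgebra
  have : IsScalarTower (IntermediateField.adjoin ℂ (Set.range t)) (IntermediateField.adjoin (ki t i) {t i}) K :=
    IsScalarTower.of_algebraMap_eq fun x => rfl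
  exact Module.Finite.of_restrictScalars_finite (IntermediateField.adjoin ℂ (Set.range t)) (IntermediateField.adjoin (ki t i) {t i}) K

/-- `ord = 0` for the nonzero elements of the field -/
private theorem ord_ki {ord : AddValuation K (WithTop ℤ)} (h : ∀ b, IsIntegral (Ai t i) b → 0 ≤ ord b) {a : K} (ha : a ∈ ki t i) (h0 : a ≠ 0) :
    ord a = 0 := by
  have hk : ∀ a ∈ ki t i, 0 ≤ ord a := fun a ha => h a (by
    have h1 : a = algebraMap (Ai t i) K (algebraMap (ki t i) (Ai t i) ⟨a, ha⟩) := rfl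
    rw [h1]
    exact isIntegral_algebraMap)
  have h1 := hk a ha
  have h2 := hk a⁻¹ ((ki t i).inv_mem ha)
  have h3 : ord a + ord a⁻¹ = 0 := by
    rw [← AddValuation.map_mul, mul_inv_cancel₀ h0, AddValuation.map_one]
  refine le_antisymm ?_ h1
  rw [← h3]
  exact le_add_of_nonneg_right h2

private theorem Int_place (ht : IsTranscendenceBasis ℂ t) (hfin : FiniteDimensional (IntermediateField.adjoin ℂ (Set.range t)) K) {c : K}
    (hc : ¬ IsIntegral (Ai t i) c) :
    ∃ E : PrimeDivisorOver K (m + 1), (∀ b, IsIntegral (Algebra.adjoin ℂ (Set.range t)) b → 0 ≤ E.ord b) ∧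
      (∀ b, 0 ≤ E.ord b → ∃ b₁ b₂, IsIntegral (Algebra.adjoin ℂ (Set.range t)) b₁ ∧ IsIntegral (Algebra.adjoin ℂ (Set.range t)) b₂ ∧
        E.ord b₂ = 0 ∧ b * b₂ = b₁) ∧ E.ord c < 0 := by
  have : CharZero (ki t i) := charZero_of_injective_algebraMap (algebraMap ℂ _).injective
  obtain ⟨ord, h1, h2, h3, h4⟩ := Int_val (k := ki t i) (t i) (Int_fin t i hfin) hc
  have hinj : Function.Injective (aeval t : MvPolynomial (Fin (m + 1)) ℂ →ₐ[ℂ] K) := ht.1
  -- the prime divisor
  have hconst : ∀ a : ℂ, 0 ≤ ord (algebraMap ℂ K a) := fun a => by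
    rcases eq_or_ne a 0 with h0 | h0
    · rw [h0, map_zero, AddValuation.map_zero]; exact le_top
    · exact (ord_ki t i h2 ((ki t i).algebraMap_mem a) ((map_ne_zero_iff _ (algebraMap ℂ K).injective).2 h0)).ge
  have hres : ∃ s : Fin (m + 1 - 1) → K, (∀ j, 0 ≤ ord (s j)) ∧
      ∀ p : MvPolynomial (Fin (m + 1 - 1)) ℂ, p ≠ 0 → ord (MvPolynomial.aeval s p) = 0 := by
    refine ⟨t ∘ i.succAbove, fun j => ?_, fun p hp => ?_⟩
    · have hne : t (i.succAbove j) ≠ 0 := by
        intro h0
        have h5 : aeval t (X (i.succAbove j) : MvPolynomial (Fin (m + 1)) ℂ) = aeval t (0 : MvPolynomial (Fin (m + 1)) ℂ) := by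
          rw [aeval_X, map_zero, h0]
        exact X_ne_zero _ (hinj h5)
      exact (ord_ki t i h2 (IntermediateField.subset_adjoin _ _ ⟨j, rfl⟩) hne).ge
    · have h5 : aeval (t ∘ i.succAbove) p = aeval t (rename i.succAbove p) := (aeval_rename _ _ _).symm
      have h6 : (rename i.succAbove p : MvPolynomial (Fin (m + 1)) ℂ) ≠ 0 := by
        intro h0
        exact hp (rename_injective _ Fin.succAbove_right_injective (by rw [h0, map_zero]))
      have h7 : aeval (t ∘ i.succAbove) p ≠ 0 := by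
        rw [h5]
        exact (map_ne_zero_iff _ hinj).2 h6
      refine ord_ki t i h2 ?_ h7
      rw [h5]
      refine aeval_mem_ki t i ?_
      rw [deg_zero]
      intro hi
      obtain ⟨l, _, hl⟩ := mem_vars_rename _ _ hi
      exact Fin.succAbove_ne i l hl
  -- integral elements
  have hint : ∀ b : K, IsIntegral (Algebra.adjoin ℂ (Set.range t)) b → IsIntegral (Ai t i) b := by
    intro b hb
    have h5 := (Int_iff ht.1).1 hb
    have h6 : (aeval t : MvPolynomial (Fin (m + 1)) ℂ →ₐ[ℂ] K).toRingHom = (algebraMap (Ai t i) K).comp (toAi t i) := RingHom.ext fun p => rfl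
    rw [h6] at h5
    have h7 : (algebraMap (Ai t i) K).IsIntegralElem b := h5.of_comp
    exact h7
  refine ⟨⟨ord, hconst, h1, hres⟩, fun b hb => h2 b (hint b hb), fun b hb => ?_, h4⟩
  obtain ⟨s₁, s₂, hs₁, hs₂, ho, hb⟩ := h3 b hb
  obtain ⟨E₁, hE₁, hE₁'⟩ := Int_clear t i ht.1 hs₁
  obtain ⟨E₂, hE₂, hE₂'⟩ := Int_clear t i ht.1 hs₂
  have hmul : ∀ (E : MvPolynomial (Fin (m + 1)) ℂ) (s : K), (aeval t : MvPolynomial (Fin (m + 1)) ℂ →ₐ[ℂ] K).toRingHom.IsIntegralElem s →
      (aeval t : MvPolynomial (Fin (m + 1)) ℂ →ₐ[ℂ] K).toRingHom.IsIntegralElem (aeval t E * s) := fun E s hs =>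
    RingHom.IsIntegralElem.mul _ (RingHom.isIntegralElem_map _) hs
  have hord : ∀ E ∈ Mi i, ord (aeval t E) = 0 := fun E hE => ord_ki t i h2 (aeval_mem_ki t i hE.2) ((map_ne_zero_iff _ hinj).2 hE.1)
  refine ⟨aeval t E₂ * (aeval t E₁ * s₁), aeval t E₁ * (aeval t E₂ * s₂), (Int_iff ht.1).2 (hmul _ _ hE₁'), (Int_iff ht.1).2 (hmul _ _ hE₂'), ?_, ?_⟩
  · show ord (aeval t E₁ * (aeval t E₂ * s₂)) = 0
    rw [AddValuation.map_mul, AddValuation.map_mul, hord _ hE₁, hord _ hE₂, ho]
    rfl
  · rw [← hb]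
    ring

end Main

/-- If `c` is regular along all prime divisors over `Spec ℂ[t]` which are finite over a hypersurface of it, then it is integral over `ℂ[t]`. -/
theorem isIntegral_of_ord {K : Type} [Field K] [Algebra ℂ K] {n : ℕ} {t : Fin n → K} (ht : IsTranscendenceBasis ℂ t)
    (hfin : FiniteDimensional (IntermediateField.adjoin ℂ (Set.range t)) K) {c : K}
    (h : ∀ E : PrimeDivisorOver K n, (∀ b, IsIntegral (Algebra.adjoin ℂ (Set.range t)) b → 0 ≤ E.ord b) →
      (∀ b, 0 ≤ E.ord b → ∃ b₁ b₂, IsIntegral (Algebra.adjoin ℂ (Set.range t)) b₁ ∧ IsIntegral (Algebra.adjoin ℂ (Set.range t)) b₂ ∧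
        E.ord b₂ = 0 ∧ b * b₂ = b₁) → 0 ≤ E.ord c) :
    IsIntegral (Algebra.adjoin ℂ (Set.range t)) c := by
  have key : ∀ i : Fin n, ∃ E ∈ Mi i, (aeval t : MvPolynomial (Fin n) ℂ →ₐ[ℂ] K).toRingHom.IsIntegralElem (aeval t E * c) := by
    cases n with
    | zero => exact fun i => i.elim0
    | succ m =>
      intro i
      refine Int_clear t i ht.1 ?_
      by_contra hc
      obtain ⟨E, h1, h2, h3⟩ := Int_place t i ht hfin hc
      exact absurd (h E h1 h2) (not_le.2 h3)
  let _ : Algebra (MvPolynomial (Fin n) ℂ) K := (aeval t : MvPolynomial (Fin n) ℂ →ₐ[ℂ] K).toRingHom.toAlgebra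
  have hinj : Function.Injective (algebraMap (MvPolynomial (Fin n) ℂ) K) := ht.1
  have : FaithfulSMul (MvPolynomial (Fin n) ℂ) K := (faithfulSMul_iff_algebraMap_injective _ _).2 hinj
  obtain ⟨D, hD, hDc⟩ : ∃ D : MvPolynomial (Fin n) ℂ, D ≠ 0 ∧ IsIntegral (MvPolynomial (Fin n) ℂ) (D • c) := by
    have halg := ht.isAlgebraic
    obtain ⟨y, hy, hyc⟩ := (Algebra.IsAlgebraic.isAlgebraic (R := Algebra.adjoin ℂ (Set.range t)) c).exists_integral_multiple
    refine ⟨ht.1.aevalEquiv.symm y, ?_, ?_⟩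
    · rw [Ne, EmbeddingLike.map_eq_zero_iff]
      exact hy
    · have h1 := (Int_iff ht.1).1 hyc
      have h2 : (ht.1.aevalEquiv.symm y) • c = y • c := by
        have h3 := ht.1.algebraMap_aevalEquiv (ht.1.aevalEquiv.symm y)
        rw [AlgEquiv.apply_symm_apply] at h3
        rw [Algebra.smul_def, Algebra.smul_def, h3]
        rfl
      rw [h2]
      exact h1
  choose E hE hE' using key
  rw [Int_iff ht.1]
  show IsIntegral (MvPolynomial (Fin n) ℂ) c
  refine Int_ufd hD hDc (fun i => (hE i).1) (fun i => ?_) ?_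
  · rw [Algebra.smul_def]
    exact hE' i
  · intro D' N hD' hdvd
    have h1 : ∀ i, degreeOf i D' = 0 := by
      intro i
      obtain ⟨w, hw⟩ := hdvd i
      have h2 : E i ^ N ≠ 0 := pow_ne_zero _ (hE i).1
      have h3 : w ≠ 0 := by
        rintro rfl
        exact h2 (by rw [hw, mul_zero])
      have h4 : degreeOf i (E i ^ N) = 0 := by
        rw [degreeOf_pow_eq _ _ _ (hE i).1, (hE i).2, mul_zero]
      rw [hw, degreeOf_mul_eq hD' h3] at h4
      omega
    have h2 : D'.vars = ∅ := by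
      ext i
      simp only [Finset.notMem_empty, iff_false]
      exact deg_zero.1 (h1 i)
    obtain ⟨a, rfl⟩ : ∃ a, D' = C a := ⟨_, vars_eq_empty_iff_eq_C.1 h2⟩
    have ha : a ≠ 0 := by
      rintro rfl
      exact hD' (map_zero _)
    exact (isUnit_iff_ne_zero.2 ha).map C

end Pool.Agent.GG.Kd
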