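import Mathlib

/-!
# GG Kd Tr: divided differences and the trace lemma

PROOF of `trace_lemma`.  Let `F = ℂ(t)`, `D = det (q_ij) ∈ ℂ[Y, Y']` with the divided differences `q_ij` of `G_i`.  For an embedding `σ` of `K` over `F` into
an algebraic closure: `D (y, σ y) = 0` if `σ` is not the inclusion, because `∑_j (y_j - σ y_j) q_ij (y, σ y) = G_i (y) - G_i (σ y) = 0`, and
`D (y, σ y) = J (y)` for the inclusion.  By induction on `p ∈ ℂ[Y, Y']`: `∑_σ σ (c) p (y, σ y) ∈ ℂ[t, y]` for all integral `c`.
-/

set_option autoImplicit false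

open MvPolynomial

noncomputable section

namespace Pool.Agent.GG.Kd

/-- Divided differences.  (Induction on `G`; for a product `G (Y) H (Y) - G (Y') H (Y') = G (Y) (H (Y) - H (Y')) + H (Y') (G (Y) - G (Y'))`.) -/
theorem exists_diff {r : ℕ} (G : MvPolynomial (Fin r) ℂ) : ∃ q : Fin r → MvPolynomial (Fin r ⊕ Fin r) ℂ,
    rename Sum.inl G - rename Sum.inr G = ∑ j, (X (Sum.inl j) - X (Sum.inr j)) * q j ∧
      ∀ j, aeval (Sum.elim X X : Fin r ⊕ Fin r → MvPolynomial (Fin r) ℂ) (q j) = pderiv j G := by
  classical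
  induction G using MvPolynomial.induction_on with
  | C a => exact ⟨0, by simp, fun j => by simp⟩
  | add p q hp hq =>
    obtain ⟨a, ha, ha'⟩ := hp
    obtain ⟨b, hb, hb'⟩ := hq
    refine ⟨a + b, ?_, fun j => by simp only [Pi.add_apply, map_add, ha', hb']⟩
    simp only [map_add, Pi.add_apply, mul_add, Finset.sum_add_distrib]
    rw [← ha, ← hb]
    ring
  | mul_X p i hp =>
    obtain ⟨a, ha, ha'⟩ := hp
    refine ⟨fun j => (if j = i then rename Sum.inl p else 0) + X (Sum.inr i) * a j, ?_, fun j => ?_⟩
    · have h1 : ∑ j, (X (Sum.inl j) - X (Sum.inr j)) * ((if j = i then rename Sum.inl p else 0) + X (Sum.inr i) * a j) =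
          (X (Sum.inl i) - X (Sum.inr i)) * rename Sum.inl p + X (Sum.inr i) * ∑ j, (X (Sum.inl j) - X (Sum.inr j)) * a j := by
        simp only [mul_add, Finset.sum_add_distrib, mul_ite, mul_zero, Finset.sum_ite_eq', Finset.mem_univ, if_true, Finset.mul_sum]
        congr 1
        exact Finset.sum_congr rfl fun j _ => by ring
      rw [h1, ← ha]
      simp only [map_mul, rename_X]
      ring
    · rw [Derivation.leibniz, pderiv_X, map_add, map_mul, ha', aeval_X]
      have h2 : aeval (Sum.elim X X : Fin r ⊕ Fin r → MvPolynomial (Fin r) ℂ) (rename Sum.inl p) = p := by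
        rw [aeval_rename]
        exact aeval_X_left_apply p
      by_cases hij : j = i
      · subst hij
        rw [if_pos rfl, h2, Pi.single_eq_same, smul_eq_mul, smul_eq_mul, mul_one, Sum.elim_inr]
      · rw [if_neg hij, map_zero, zero_add, Pi.single_eq_of_ne (Ne.symm hij), smul_zero, zero_add, smul_eq_mul, Sum.elim_inr]

open scoped IntermediateField.algebraAdjoinAdjoin in
/-- `J c ∈ ℂ[t, y]` for all `c` integral over `ℂ[t]`. -/
theorem trace_lemma {K : Type} [Field K] [Algebra ℂ K] {n r : ℕ} {t : Fin n → K} (ht : IsTranscendenceBasis ℂ t) (y : Fin r → K)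
    (hy : ∀ i, IsIntegral (Algebra.adjoin ℂ (Set.range t)) (y i)) (hgen : IntermediateField.adjoin ℂ (Set.range t ∪ Set.range y) = ⊤)
    (G : Fin r → MvPolynomial (Fin r) ℂ) (hG : ∀ i, aeval y (G i) ∈ Algebra.adjoin ℂ (Set.range t)) {c : K}
    (hc : IsIntegral (Algebra.adjoin ℂ (Set.range t)) c) :
    aeval y (Matrix.det fun i j => pderiv j (G i)) * c ∈ Algebra.adjoin ℂ (Set.range t ∪ Set.range y) := by
  classical
  have hic : IsIntegrallyClosed (Algebra.adjoin ℂ (Set.range t)) := IsIntegrallyClosed.of_equiv (ht.1.aevalEquiv.toRingEquiv)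
  have hyF : ∀ i, IsIntegral (IntermediateField.adjoin ℂ (Set.range t)) (y i) := fun i => (hy i).tower_top
  have htop : IntermediateField.adjoin (IntermediateField.adjoin ℂ (Set.range t)) (Set.range y) = ⊤ := by
    have h1 := IntermediateField.adjoin_adjoin_left ℂ (Set.range t) (Set.range y)
    rw [hgen] at h1
    rw [eq_top_iff]
    intro x _
    have h2 : x ∈ IntermediateField.restrictScalars ℂ (IntermediateField.adjoin (IntermediateField.adjoin ℂ (Set.range t)) (Set.range y)) := by
      rw [h1]
      trivial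
    exact h2
  have hfin : FiniteDimensional (IntermediateField.adjoin ℂ (Set.range t)) K := by
    have h1 : FiniteDimensional (IntermediateField.adjoin ℂ (Set.range t))
        (IntermediateField.adjoin (IntermediateField.adjoin ℂ (Set.range t)) (Set.range y)) :=
      IntermediateField.finiteDimensional_adjoin (by rintro _ ⟨i, rfl⟩; exact hyF i)
    rw [htop] at h1
    exact IntermediateField.topEquiv.toLinearEquiv.finiteDimensional
  have htop' : Algebra.adjoin (IntermediateField.adjoin ℂ (Set.range t)) (Set.range y) = ⊤ := by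
    rw [← IntermediateField.adjoin_toSubalgebra_of_isAlgebraic (by rintro _ ⟨i, rfl⟩; exact (hyF i).isAlgebraic), htop]
    rfl
  have htr : ∀ c : K, IsIntegral (Algebra.adjoin ℂ (Set.range t)) c → ∃ e : Algebra.adjoin ℂ (Set.range t),
      algebraMap K (AlgebraicClosure K) (e : K) = ∑ σ : K →ₐ[IntermediateField.adjoin ℂ (Set.range t)] AlgebraicClosure K, σ c := by
    intro c hc
    have h1 : IsIntegral (Algebra.adjoin ℂ (Set.range t)) (Algebra.trace (IntermediateField.adjoin ℂ (Set.range t)) K c) :=
      Algebra.isIntegral_trace hc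
    obtain ⟨e, he⟩ := IsIntegrallyClosed.isIntegral_iff.1 h1
    refine ⟨e, ?_⟩
    rw [← trace_eq_sum_embeddings (AlgebraicClosure K), ← he]
    rfl
  have hmono1 : Algebra.adjoin ℂ (Set.range t) ≤ Algebra.adjoin ℂ (Set.range t ∪ Set.range y) := Algebra.adjoin_mono Set.subset_union_left
  have hmono2 : ∀ j, y j ∈ Algebra.adjoin ℂ (Set.range t ∪ Set.range y) := fun j => Algebra.subset_adjoin (Or.inr ⟨j, rfl⟩)
  have key : ∀ p : MvPolynomial (Fin r ⊕ Fin r) ℂ, ∀ c : K, IsIntegral (Algebra.adjoin ℂ (Set.range t)) c →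
      ∃ e ∈ Algebra.adjoin ℂ (Set.range t ∪ Set.range y), algebraMap K (AlgebraicClosure K) e =
        ∑ σ : K →ₐ[IntermediateField.adjoin ℂ (Set.range t)] AlgebraicClosure K,
          σ c * aeval (Sum.elim (fun j => algebraMap K (AlgebraicClosure K) (y j)) fun j => σ (y j)) p := by
    intro p
    induction p using MvPolynomial.induction_on with
    | C a =>
      intro c hc
      obtain ⟨e, he⟩ := htr c hc
      refine ⟨(e : K) * algebraMap ℂ K a, mul_mem (hmono1 e.2) (Subalgebra.algebraMap_mem _ _), ?_⟩
      rw [map_mul, he, Finset.sum_mul]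
      refine Finset.sum_congr rfl fun σ _ => ?_
      rw [algHom_C, ← IsScalarTower.algebraMap_apply ℂ K (AlgebraicClosure K)]
    | add p q hp hq =>
      intro c hc
      obtain ⟨e, he, he'⟩ := hp c hc
      obtain ⟨f, hf, hf'⟩ := hq c hc
      refine ⟨e + f, add_mem he hf, ?_⟩
      simp only [map_add, mul_add, Finset.sum_add_distrib, he', hf']
    | mul_X p i hp =>
      intro c hc
      rcases i with i | i
      · obtain ⟨e, he, he'⟩ := hp c hc
        refine ⟨e * y i, mul_mem he (hmono2 i), ?_⟩
        rw [map_mul, he', Finset.sum_mul]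
        refine Finset.sum_congr rfl fun σ _ => ?_
        rw [map_mul, aeval_X, Sum.elim_inl, mul_assoc]
      · obtain ⟨e, he, he'⟩ := hp (c * y i) (hc.mul (hy i))
        refine ⟨e, he, ?_⟩
        rw [he']
        refine Finset.sum_congr rfl fun σ _ => ?_
        rw [map_mul, map_mul, aeval_X, Sum.elim_inr]
        ring
  choose q hq hq' using fun i => exists_diff (G i)
  obtain ⟨e, he, he'⟩ := key (Matrix.det (Matrix.of fun i j => q i j)) c hc
  have hmem : ∀ i, ∃ g : IntermediateField.adjoin ℂ (Set.range t), (g : K) = aeval y (G i) := fun i =>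
    ⟨⟨aeval y (G i), IntermediateField.algebra_adjoin_le_adjoin ℂ _ (hG i)⟩, rfl⟩
  set σ₀ : K →ₐ[IntermediateField.adjoin ℂ (Set.range t)] AlgebraicClosure K := IsScalarTower.toAlgHom _ K (AlgebraicClosure K) with hσ₀
  have hzero : ∀ σ : K →ₐ[IntermediateField.adjoin ℂ (Set.range t)] AlgebraicClosure K, σ ≠ σ₀ →
      aeval (Sum.elim (fun j => algebraMap K (AlgebraicClosure K) (y j)) fun j => σ (y j)) (Matrix.det (Matrix.of fun i j => q i j)) = 0 := by
    intro σ hσ
    rw [AlgHom.map_det]
    rw [← Matrix.exists_mulVec_eq_zero_iff]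
    refine ⟨fun j => algebraMap K (AlgebraicClosure K) (y j) - σ (y j), ?_, ?_⟩
    · intro h
      apply hσ
      apply AlgHom.ext_of_adjoin_eq_top htop'
      rintro _ ⟨j, rfl⟩
      have h1 := congrFun h j
      simp only [Pi.zero_apply] at h1
      exact (sub_eq_zero.1 h1).symm
    · funext i
      have h1 := congrArg (aeval (Sum.elim (fun j => algebraMap K (AlgebraicClosure K) (y j)) fun j => σ (y j))) (hq i)
      rw [map_sub, aeval_rename, aeval_rename, map_sum] at h1
      obtain ⟨g, hg⟩ := hmem i
      have h2 : aeval ((Sum.elim (fun j => algebraMap K (AlgebraicClosure K) (y j)) fun j => σ (y j)) ∘ Sum.inl) (G i) =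
          algebraMap K (AlgebraicClosure K) (aeval y (G i)) := by
        have h3 := comp_aeval_apply (IsScalarTower.toAlgHom ℂ K (AlgebraicClosure K)) (f := y) (G i)
        exact h3.symm
      have h3 : aeval ((Sum.elim (fun j => algebraMap K (AlgebraicClosure K) (y j)) fun j => σ (y j)) ∘ Sum.inr) (G i) =
          σ (aeval y (G i)) := by
        have h3 := comp_aeval_apply (σ.restrictScalars ℂ) (f := y) (G i)
        exact h3.symm
      have h4 : σ (aeval y (G i)) = algebraMap K (AlgebraicClosure K) (aeval y (G i)) := by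
        rw [← hg]
        exact σ.commutes g
      rw [h2, h3, h4, sub_self] at h1
      simp only [map_mul, map_sub, aeval_X, Sum.elim_inl, Sum.elim_inr] at h1
      rw [Pi.zero_apply, Matrix.mulVec, dotProduct, h1]
      refine Finset.sum_congr rfl fun j _ => ?_
      rw [mul_comm]
      rfl
  have hone : aeval (Sum.elim (fun j => algebraMap K (AlgebraicClosure K) (y j)) fun j => σ₀ (y j)) (Matrix.det (Matrix.of fun i j => q i j)) =
      algebraMap K (AlgebraicClosure K) (aeval y (Matrix.det (Matrix.of fun i j => pderiv j (G i)))) := by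
    rw [AlgHom.map_det, AlgHom.map_det, RingHom.map_det]
    congr 1
    ext i j
    have h1 : aeval (Sum.elim (fun j => algebraMap K (AlgebraicClosure K) (y j)) fun j => σ₀ (y j)) (q i j) =
        aeval (fun j => algebraMap K (AlgebraicClosure K) (y j)) (aeval (Sum.elim X X : Fin r ⊕ Fin r → MvPolynomial (Fin r) ℂ) (q i j)) := by
      rw [comp_aeval_apply]
      congr 2
      funext s
      rcases s with s | s
      · simp
      · simp [hσ₀]
    have h2 : aeval (fun j => algebraMap K (AlgebraicClosure K) (y j)) (pderiv j (G i)) =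
        algebraMap K (AlgebraicClosure K) (aeval y (pderiv j (G i))) :=
      (comp_aeval_apply (IsScalarTower.toAlgHom ℂ K (AlgebraicClosure K)) (f := y) (pderiv j (G i))).symm
    show aeval (Sum.elim (fun j => algebraMap K (AlgebraicClosure K) (y j)) fun j => σ₀ (y j)) (q i j) = algebraMap K (AlgebraicClosure K) (aeval y (pderiv j (G i)))
    rw [h1, hq', h2]
  rw [Finset.sum_eq_single σ₀ (fun σ _ hσ => by rw [hzero σ hσ, mul_zero]) (fun h => absurd (Finset.mem_univ _) h), hone] at he'
  have h5 : σ₀ c = algebraMap K (AlgebraicClosure K) c := rfl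
  rw [h5, ← map_mul] at he'
  have h6 := (algebraMap K (AlgebraicClosure K)).injective he'
  rw [mul_comm]
  have h7 : c * aeval y (Matrix.det fun i j => pderiv j (G i)) = e := h6.symm
  rw [h7]
  exact he

end Pool.Agent.GG.Kd
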