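import Pool.Agent.GG.Kd.Chn
import Pool.Agent.GG.Kd.Tr
import Pool.Agent.GG.Kd.Int

/-!
# GG Kd Drv: derivations, and forms regular along all divisors are regular where `J ≠ 0`
-/

set_option autoImplicit false

open MvPolynomial
open Pool.Agent.H23 (dualDer dualDer_coord fc)
open Pool.Agent.H23.Fano (Form regularForms PrimeDivisorOver)
open Pool.Agent.H17LG.Variety (PoleAtMost)

noncomputable section

namespace Pool.Agent.GG.Kd

variable {K : Type} [Field K] [Algebra ℂ K] {r k : ℕ}

/-- `J D a ∈ ℂ[y]` for `a ∈ ℂ[y]`, if `D (t j) ∈ ℂ[y]`. -/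
theorem Dat.der_mem {y : Fin r → K} (d : Dat y k) (D : Derivation ℂ K K) (hD : ∀ j, D (d.t j) ∈ Algebra.adjoin ℂ (Set.range y)) {a : K}
    (ha : a ∈ Algebra.adjoin ℂ (Set.range y)) : aeval y d.J * D a ∈ Algebra.adjoin ℂ (Set.range y) := by
  classical
  have hpol : ∀ A : MvPolynomial (Fin r) ℂ, aeval y A ∈ Algebra.adjoin ℂ (Set.range y) := fun A => by
    rw [Algebra.adjoin_range_eq_range_aeval]
    exact ⟨A, rfl⟩
  set PM : Matrix (Fin r) (Fin r) (MvPolynomial (Fin r) ℂ) := fun i l => pderiv l (d.G i) with hPM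
  have hdet : PM.det = d.J := rfl
  set My : Matrix (Fin r) (Fin r) K := fun i l => aeval y (PM i l) with hMy
  have hMydet : My.det = aeval y d.J := by
    rw [← hdet]
    exact ((aeval y : MvPolynomial (Fin r) ℂ →ₐ[ℂ] K).toRingHom.map_det PM).symm
  have hMyadj : ∀ i j, My.adjugate i j = aeval y (PM.adjugate i j) := fun i j =>
    (congrFun (congrFun ((aeval y : MvPolynomial (Fin r) ℂ →ₐ[ℂ] K).toRingHom.map_adjugate PM) i) j).symm
  have hG : ∀ i, D (aeval y (d.G i)) ∈ Algebra.adjoin ℂ (Set.range y) := by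
    intro i
    rcases d.hG i with ⟨j, h⟩ | h
    · rw [h]
      exact hD j
    · rw [h, map_zero]
      exact zero_mem _
  have hy : ∀ l, aeval y d.J * D (y l) ∈ Algebra.adjoin ℂ (Set.range y) := by
    intro l
    have h1 : My.mulVec (fun l => D (y l)) = fun i => D (aeval y (d.G i)) := by
      funext i
      rw [der_aeval]
      rfl
    have h2 : My.det * D (y l) = ∑ i, My.adjugate l i * D (aeval y (d.G i)) := by
      have h3 := congrArg (fun u => My.adjugate.mulVec u) h1
      simp only [Matrix.mulVec_mulVec, Matrix.adjugate_mul] at h3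
      have h4 := congrFun h3 l
      rw [Matrix.smul_mulVec, Matrix.one_mulVec] at h4
      exact h4
    rw [← hMydet, h2]
    refine sum_mem fun i _ => mul_mem ?_ (hG i)
    rw [hMyadj]
    exact hpol _
  rw [Algebra.adjoin_range_eq_range_aeval] at ha
  obtain ⟨A, rfl⟩ := ha
  have h1 : D (aeval y A) = ∑ l, aeval y (pderiv l A) * D (y l) := der_aeval D y A
  change aeval y d.J * D (aeval y A) ∈ _
  rw [h1, Finset.mul_sum]
  refine sum_mem fun l _ => ?_
  rw [mul_left_comm]
  exact mul_mem (hpol _) (hy l)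

/-- the valuation ring -/
def valAlg (E : PrimeDivisorOver K k) : Subalgebra ℂ K where
  carrier := {f | 0 ≤ E.ord f}
  mul_mem' := by
    intro a b ha hb
    change 0 ≤ E.ord (a * b)
    rw [E.ord.map_mul]
    exact add_nonneg ha hb
  add_mem' := by
    intro a b ha hb
    exact (le_min ha hb).trans (E.ord.map_add a b)
  algebraMap_mem' := fun c => E.ord_const c

theorem mem_valAlg (E : PrimeDivisorOver K k) (f : K) : f ∈ valAlg E ↔ 0 ≤ E.ord f := Iff.rfl

/-- division by an element of order zero -/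
theorem valAlg_of_mul (E : PrimeDivisorOver K k) {f g : K} (hg : E.ord g = 0) (h : f * g ∈ valAlg E) : f ∈ valAlg E := by
  rw [mem_valAlg, E.ord.map_mul, hg, add_zero] at h
  exact h

theorem Dat.t_mem {y : Fin r → K} (d : Dat y k) (j : Fin k) : d.t j ∈ Algebra.adjoin ℂ (Set.range y) := by
  rw [Algebra.adjoin_range_eq_range_aeval]
  exact ⟨lf (d.L j), rfl⟩

theorem Dat.union {y : Fin r → K} (d : Dat y k) : Algebra.adjoin ℂ (Set.range d.t ∪ Set.range y) = Algebra.adjoin ℂ (Set.range y) := by
  refine le_antisymm (Algebra.adjoin_le ?_) (Algebra.adjoin_mono Set.subset_union_right)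
  rintro x (⟨j, rfl⟩ | ⟨i, rfl⟩)
  · exact d.t_mem j
  · exact Algebra.subset_adjoin ⟨i, rfl⟩

theorem Dat.trace {y : Fin r → K} (d : Dat y k) (hgen : IntermediateField.adjoin ℂ (Set.range y) = ⊤) {c : K}
    (hc : IsIntegral (Algebra.adjoin ℂ (Set.range d.t)) c) : aeval y d.J * c ∈ Algebra.adjoin ℂ (Set.range y) := by
  rw [← d.union]
  refine trace_lemma d.basis y d.int ?_ d.G (fun i => ?_) hc
  · rw [eq_top_iff, ← hgen]
    exact IntermediateField.adjoin.mono _ _ _ Set.subset_union_right
  · rcases d.hG i with ⟨j, h⟩ | h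
    · rw [h]
      exact Algebra.subset_adjoin ⟨j, rfl⟩
    · rw [h]
      exact zero_mem _

theorem Dat.fin {y : Fin r → K} (d : Dat y k) (hgen : IntermediateField.adjoin ℂ (Set.range y) = ⊤) :
    FiniteDimensional (IntermediateField.adjoin ℂ (Set.range d.t)) K := by
  set F := IntermediateField.adjoin ℂ (Set.range d.t) with hF
  have h1 : ∀ i, IsIntegral F (y i) := by
    intro i
    obtain ⟨p, hp, hpa⟩ := d.int i
    have hle : Algebra.adjoin ℂ (Set.range fun j => aeval y (lf (d.L j))) ≤ F.toSubalgebra := IntermediateField.algebra_adjoin_le_adjoin ℂ _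
    refine ⟨p.map (Subalgebra.inclusion hle).toRingHom, hp.map _, ?_⟩
    rw [Polynomial.eval₂_map]
    exact hpa
  have h2 : IntermediateField.adjoin F (Set.range y) = ⊤ := by
    rw [eq_top_iff]
    intro x _
    have h3 : x ∈ IntermediateField.adjoin ℂ (Set.range y) := hgen ▸ IntermediateField.mem_top
    have h4 : IntermediateField.adjoin ℂ (Set.range y) ≤ (IntermediateField.adjoin F (Set.range y)).restrictScalars ℂ :=
      IntermediateField.adjoin_le_iff.2 (IntermediateField.subset_adjoin F _)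
    exact h4 h3
  have h3 : FiniteDimensional F (IntermediateField.adjoin F (Set.range y)) := by
    have : Finite (Set.range y) := Set.finite_range y
    exact IntermediateField.finiteDimensional_adjoin fun x hx => by
      obtain ⟨i, rfl⟩ := hx
      exact h1 i
  rw [h2] at h3
  exact Module.Finite.equiv (IntermediateField.topEquiv (F := F) (E := K)).toLinearEquiv

/-- the derivatives along a divisor -/
theorem Dat.der_val {y : Fin r → K} (d : Dat y k) (hgen : IntermediateField.adjoin ℂ (Set.range y) = ⊤) (E : PrimeDivisorOver K k)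
    (hE1 : ∀ b, IsIntegral (Algebra.adjoin ℂ (Set.range d.t)) b → 0 ≤ E.ord b)
    (hE2 : ∀ b, 0 ≤ E.ord b → ∃ b₁ b₂, IsIntegral (Algebra.adjoin ℂ (Set.range d.t)) b₁ ∧ IsIntegral (Algebra.adjoin ℂ (Set.range d.t)) b₂ ∧
        E.ord b₂ = 0 ∧ b * b₂ = b₁)
    (D : Derivation ℂ K K) (hD : ∀ j, D (d.t j) ∈ Algebra.adjoin ℂ (Set.range y)) {a : K} (ha : a ∈ valAlg E) :
    aeval y d.J ^ 2 * D a ∈ valAlg E := by
  have hle : Algebra.adjoin ℂ (Set.range y) ≤ valAlg E := by
    refine Algebra.adjoin_le ?_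
    rintro _ ⟨i, rfl⟩
    exact hE1 _ (d.int i)
  have hJ : aeval y d.J ∈ Algebra.adjoin ℂ (Set.range y) := by
    rw [Algebra.adjoin_range_eq_range_aeval]
    exact ⟨d.J, rfl⟩
  have h1 : ∀ b, IsIntegral (Algebra.adjoin ℂ (Set.range d.t)) b → aeval y d.J ^ 2 * D b ∈ valAlg E := by
    intro b hb
    have h2 := hle (d.der_mem D hD (d.trace hgen hb))
    have h3 := hle (d.der_mem D hD hJ)
    have h4 : aeval y d.J ^ 2 * D b = aeval y d.J * D (aeval y d.J * b) - b * (aeval y d.J * D (aeval y d.J)) := by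
      rw [Derivation.leibniz, smul_eq_mul, smul_eq_mul]
      ring
    rw [h4]
    exact sub_mem h2 (mul_mem (hE1 b hb) h3)
  obtain ⟨b₁, b₂, h2, h3, h4, h5⟩ := hE2 a ha
  refine valAlg_of_mul E h4 ?_
  have h6 : aeval y d.J ^ 2 * D a * b₂ = aeval y d.J ^ 2 * D b₁ - a * (aeval y d.J ^ 2 * D b₂) := by
    rw [← h5, Derivation.leibniz, smul_eq_mul, smul_eq_mul]
    ring
  rw [h6]
  exact sub_mem (h1 _ h2) (mul_mem ha (h1 _ h3))

/-- A form `H (W dt)^M` which is regular along all prime divisors with `y i` in the local ring is regular where `J ≠ 0`. -/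
theorem Dat.reg {y : Fin r → K} (d : Dat y k) (hgen : IntermediateField.adjoin ℂ (Set.range y) = ⊤) {M : ℕ} {H W : K}
    (h : ∀ E : PrimeDivisorOver K k, (∀ i, 0 ≤ E.ord (y i)) → PoleAtMost 0 E M H (Form.mk W d.t)) :
    aeval y d.J ^ (2 * k * M + 1) * (H * W ^ M) ∈ Algebra.adjoin ℂ (Set.range y) := by
  classical
  obtain ⟨b, hb⟩ := Pool.Agent.H23.exists_basis_kaehler d.basis
  have hb' : ∀ j, b j = KaehlerDifferential.D ℂ K (d.t j) := hb
  have hDt : ∀ i j, dualDer b i (d.t j) ∈ Algebra.adjoin ℂ (Set.range y) := by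
    intro i j
    rw [dualDer_coord b hb' i j]
    split_ifs
    · exact one_mem _
    · exact zero_mem _
  have hint : IsIntegral (Algebra.adjoin ℂ (Set.range d.t)) (aeval y d.J ^ (2 * k * M) * (H * W ^ M)) := by
    refine isIntegral_of_ord d.basis (d.fin hgen) fun E hE1 hE2 => ?_
    obtain ⟨g, η, hη, hω, hord⟩ := h E fun i => hE1 _ (d.int i)
    -- the coefficient of a regular form
    have hreg : ∀ η ∈ regularForms k E.localRing, aeval y d.J ^ (2 * k) * fc b η ∈ valAlg E := by
      intro η hη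
      induction hη using AddSubgroup.closure_induction with
      | mem x hx =>
        obtain ⟨c, a, hc, ha, rfl⟩ := hx
        have h2 : (Form.mk c a : Form K k) = c • exteriorPower.ιMulti K k (fun i => KaehlerDifferential.D ℂ K (a i)) := rfl
        rw [h2, map_smul, Pool.Agent.H23.fc_ιMulti, smul_eq_mul, Module.Basis.det_apply, mul_left_comm]
        refine mul_mem hc ?_
        have h3 : aeval y d.J ^ (2 * k) * (b.toMatrix fun i => KaehlerDifferential.D ℂ K (a i)).det =
            (aeval y d.J ^ 2 • (b.toMatrix fun i => KaehlerDifferential.D ℂ K (a i))).det := by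
          rw [Matrix.det_smul, Fintype.card_fin, pow_mul]
        rw [h3]
        refine Pool.Agent.H23.det_mem (valAlg E) _ fun i j => ?_
        rw [Matrix.smul_apply, smul_eq_mul]
        exact d.der_val hgen E hE1 hE2 (dualDer b i) (hDt i) (ha j)
      | zero =>
        have h2 : aeval y d.J ^ (2 * k) * fc b (0 : Form K k) = 0 := (congrArg _ (map_zero (fc b))).trans (mul_zero _)
        exact h2 ▸ zero_mem _
      | add x y' _ _ hx hy =>
        have h2 : aeval y d.J ^ (2 * k) * fc b (x + y') = aeval y d.J ^ (2 * k) * fc b x + aeval y d.J ^ (2 * k) * fc b y' :=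
          (congrArg _ (map_add (fc b) x y')).trans (mul_add _ _ _)
        rw [h2]
        exact add_mem hx hy
      | neg x _ hx =>
        have h2 : aeval y d.J ^ (2 * k) * fc b (-x) = -(aeval y d.J ^ (2 * k) * fc b x) :=
          (congrArg _ (map_neg (fc b) x)).trans (mul_neg _ _)
        rw [h2]
        exact neg_mem hx
    have hW : W = g * fc b η := by
      have h1 : fc b (Form.mk W d.t) = W := by
        have h2 : (Form.mk W d.t : Form K k) = W • exteriorPower.ιMulti K k (fun i => b i) := by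
          have h3 : (fun i => b i) = fun i => Pool.Agent.H23.Fano.d (d.t i) := funext hb'
          rw [h3]
          rfl
        rw [h2, map_smul, Pool.Agent.H23.fc_self, smul_eq_mul, mul_one]
      rw [← h1, hω]
      exact (map_smul (fc b) g η)
    have h2 : aeval y d.J ^ (2 * k * M) * (H * W ^ M) = (H * g ^ M) * (aeval y d.J ^ (2 * k) * fc b η) ^ M := by
      rw [hW, mul_pow, mul_pow, pow_mul]
      ring
    rw [← mem_valAlg, h2]
    refine mul_mem ?_ (pow_mem (hreg η hη) M)
    rw [mem_valAlg]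
    simpa using hord
  have h1 := d.trace hgen hint
  rw [← mul_assoc, ← pow_succ'] at h1
  exact h1

end Pool.Agent.GG.Kd
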