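import Pool.Agent.GG.Kd.Defs

/-!
# GG Kd Ev: values of rational functions at points with coordinates in an algebra

`Ev y w f c`: the element `f` of `K = ℂ(y)` is regular at the `B`-valued point `w` of the variety with generic point `y`, with the value `c`.  For `B = ℂ[ε]` and
the point `w + ε v` the value is `f (w) + ε df (w) v`.
-/

set_option autoImplicit false

open MvPolynomial

noncomputable section

namespace Pool.Agent.GG.Kd

variable {K : Type} [Field K] [Algebra ℂ K] {r r' k : ℕ} {B : Type} [CommRing B] [Algebra ℂ B]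

/-- `w` is a `B`-valued point of the affine variety with the generic point `y`. -/
def IsPtB (y : Fin r → K) (w : Fin r → B) : Prop := ∀ G : MvPolynomial (Fin r) ℂ, aeval y G = 0 → aeval w G = 0

/-- `f` is regular at `w`, with the value `c`. -/
def Ev (y : Fin r → K) (w : Fin r → B) (f : K) (c : B) : Prop :=
  ∃ A D : MvPolynomial (Fin r) ℂ, IsUnit (aeval w D) ∧ f * aeval y D = aeval y A ∧ c * aeval w D = aeval w A

theorem isPtB_iff {y : Fin r → K} {w : Fin r → ℂ} : IsPtB y w ↔ IsPt y w := by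
  unfold IsPtB IsPt
  simp only [MvPolynomial.aeval_eq_eval]

section Basic

variable {y : Fin r → K} {w : Fin r → B}

theorem IsPtB.ne [Nontrivial B] (hw : IsPtB y w) {D : MvPolynomial (Fin r) ℂ} (h : IsUnit (aeval w D)) : aeval y D ≠ 0 := by
  intro h0
  rw [hw D h0] at h
  exact not_isUnit_zero h

/-- The value is unique. -/
theorem Ev.unique (hw : IsPtB y w) {f : K} {c c' : B} (h : Ev y w f c) (h' : Ev y w f c') : c = c' := by
  obtain ⟨A, D, hD, h1, h2⟩ := h
  obtain ⟨A', D', hD', h1', h2'⟩ := h'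
  have h3 : aeval y (A * D' - A' * D) = 0 := by
    rw [map_sub, map_mul, map_mul, ← h1, ← h1']
    ring
  have h4 := hw _ h3
  rw [map_sub, map_mul, map_mul, ← h2, ← h2'] at h4
  have h5 : (c - c') * (aeval w D * aeval w D') = 0 := by linear_combination h4
  have h6 := ((hD.mul hD').mul_left_eq_zero).1 h5
  exact sub_eq_zero.1 h6

theorem Ev.poly (y : Fin r → K) (w : Fin r → B) (A : MvPolynomial (Fin r) ℂ) : Ev y w (aeval y A) (aeval w A) :=
  ⟨A, 1, by rw [map_one]; exact isUnit_one, by rw [map_one, mul_one], by rw [map_one, mul_one]⟩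

theorem Ev.var (y : Fin r → K) (w : Fin r → B) (i : Fin r) : Ev y w (y i) (w i) := by
  have := Ev.poly y w (X i)
  rwa [aeval_X, aeval_X] at this

theorem Ev.const (y : Fin r → K) (w : Fin r → B) (z : ℂ) : Ev y w (algebraMap ℂ K z) (algebraMap ℂ B z) := by
  have := Ev.poly y w (C z)
  rwa [aeval_C, aeval_C] at this

theorem Ev.zero (y : Fin r → K) (w : Fin r → B) : Ev y w (0 : K) (0 : B) := by
  have := Ev.const y w 0
  rwa [map_zero, map_zero] at this

theorem Ev.one (y : Fin r → K) (w : Fin r → B) : Ev y w (1 : K) (1 : B) := by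
  have := Ev.const y w 1
  rwa [map_one, map_one] at this

theorem Ev.add {f g : K} {c e : B} (hf : Ev y w f c) (hg : Ev y w g e) : Ev y w (f + g) (c + e) := by
  obtain ⟨A, D, hD, h1, h2⟩ := hf
  obtain ⟨A', D', hD', h1', h2'⟩ := hg
  refine ⟨A * D' + A' * D, D * D', ?_, ?_, ?_⟩
  · rw [map_mul]
    exact hD.mul hD'
  · rw [map_mul, map_add, map_mul, map_mul, ← h1, ← h1']
    ring
  · rw [map_mul, map_add, map_mul, map_mul, ← h2, ← h2']
    ring

theorem Ev.mul {f g : K} {c e : B} (hf : Ev y w f c) (hg : Ev y w g e) : Ev y w (f * g) (c * e) := by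
  obtain ⟨A, D, hD, h1, h2⟩ := hf
  obtain ⟨A', D', hD', h1', h2'⟩ := hg
  refine ⟨A * A', D * D', ?_, ?_, ?_⟩
  · rw [map_mul]
    exact hD.mul hD'
  · rw [map_mul, map_mul, ← h1, ← h1']
    ring
  · rw [map_mul, map_mul, ← h2, ← h2']
    ring

theorem Ev.neg {f : K} {c : B} (hf : Ev y w f c) : Ev y w (-f) (-c) := by
  have h := (Ev.const y w (-1)).mul hf
  simpa using h

theorem Ev.sub {f g : K} {c e : B} (hf : Ev y w f c) (hg : Ev y w g e) : Ev y w (f - g) (c - e) := by
  rw [sub_eq_add_neg, sub_eq_add_neg]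
  exact hf.add hg.neg

theorem Ev.pow {f : K} {c : B} (hf : Ev y w f c) (n : ℕ) : Ev y w (f ^ n) (c ^ n) := by
  induction n with
  | zero => rw [pow_zero, pow_zero]; exact Ev.one y w
  | succ n ih => rw [pow_succ, pow_succ]; exact ih.mul hf

theorem Ev.sum {ι : Type} (s : Finset ι) {f : ι → K} {c : ι → B} (h : ∀ i ∈ s, Ev y w (f i) (c i)) :
    Ev y w (∑ i ∈ s, f i) (∑ i ∈ s, c i) := by
  classical
  induction s using Finset.induction_on with
  | empty => rw [Finset.sum_empty, Finset.sum_empty]; exact Ev.zero y w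
  | insert a s ha ih =>
    rw [Finset.sum_insert ha, Finset.sum_insert ha]
    exact (h a (Finset.mem_insert_self _ _)).add (ih fun i hi => h i (Finset.mem_insert_of_mem hi))

theorem Ev.prod {ι : Type} (s : Finset ι) {f : ι → K} {c : ι → B} (h : ∀ i ∈ s, Ev y w (f i) (c i)) :
    Ev y w (∏ i ∈ s, f i) (∏ i ∈ s, c i) := by
  classical
  induction s using Finset.induction_on with
  | empty => rw [Finset.prod_empty, Finset.prod_empty]; exact Ev.one y w
  | insert a s ha ih =>
    rw [Finset.prod_insert ha, Finset.prod_insert ha]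
    exact (h a (Finset.mem_insert_self _ _)).mul (ih fun i hi => h i (Finset.mem_insert_of_mem hi))

theorem Ev.det {n : ℕ} {f : Matrix (Fin n) (Fin n) K} {c : Matrix (Fin n) (Fin n) B} (h : ∀ i j, Ev y w (f i j) (c i j)) : Ev y w f.det c.det := by
  rw [Matrix.det_apply', Matrix.det_apply']
  refine Ev.sum _ fun σ _ => ?_
  refine Ev.mul ?_ (Ev.prod _ fun i _ => h _ _)
  have h1 := Ev.const y w (((Equiv.Perm.sign σ : ℤˣ) : ℤ) : ℂ)
  simpa using h1

theorem Ev.inv [Nontrivial B] (hw : IsPtB y w) {f : K} {c c' : B} (hf : Ev y w f c) (hc : c * c' = 1) : Ev y w f⁻¹ c' := by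
  obtain ⟨A, D, hD, h1, h2⟩ := hf
  have hcu : IsUnit c := IsUnit.of_mul_eq_one c' hc
  have hA : IsUnit (aeval w A) := by
    rw [← h2]
    exact hcu.mul hD
  have hAy := hw.ne hA
  have hf0 : f ≠ 0 := by
    rintro rfl
    rw [zero_mul] at h1
    exact hAy h1.symm
  refine ⟨D, A, hA, ?_, ?_⟩
  · rw [← h1, ← mul_assoc, inv_mul_cancel₀ hf0, one_mul]
  · rw [← h2, ← mul_assoc, mul_comm c' c, hc, one_mul]

theorem Ev.div [Nontrivial B] (hw : IsPtB y w) {f g : K} {c e e' : B} (hf : Ev y w f c) (hg : Ev y w g e) (he : e * e' = 1) :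
    Ev y w (f / g) (c * e') := by
  rw [div_eq_mul_inv]
  exact hf.mul (hg.inv hw he)

/-- The values of polynomials in regular functions. -/
theorem Ev.aeval {y' : Fin r' → K} {w' : Fin r' → B} (h : ∀ i, Ev y w (y' i) (w' i)) (A : MvPolynomial (Fin r') ℂ) :
    Ev y w (MvPolynomial.aeval y' A) (MvPolynomial.aeval w' A) := by
  induction A using MvPolynomial.induction_on with
  | C c =>
    rw [aeval_C, aeval_C]
    exact Ev.const y w c
  | add p q hp hq =>
    rw [map_add, map_add]
    exact hp.add hq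
  | mul_X p i hp =>
    rw [map_mul, map_mul, aeval_X, aeval_X]
    exact hp.mul (h i)

theorem IsPtB.change (hw : IsPtB y w) {y' : Fin r' → K} {w' : Fin r' → B} (h : ∀ i, Ev y w (y' i) (w' i)) : IsPtB y' w' := by
  intro G hG
  have h1 := Ev.aeval h G
  rw [hG] at h1
  exact h1.unique hw (Ev.zero y w)

/-- Change of the generators. -/
theorem Ev.change [Nontrivial B] (hw : IsPtB y w) {y' : Fin r' → K} {w' : Fin r' → B} (h : ∀ i, Ev y w (y' i) (w' i)) {f : K} {c : B}
    (hf : Ev y' w' f c) : Ev y w f c := by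
  obtain ⟨A, D, hD, h1, h2⟩ := hf
  have hDy := (hw.change h).ne hD
  obtain ⟨u, hu⟩ := hD.exists_right_inv
  have h3 := (Ev.aeval h A).div hw (Ev.aeval h D) hu
  have e1 : MvPolynomial.aeval y' A / MvPolynomial.aeval y' D = f := by
    rw [← h1, mul_div_assoc, div_self hDy, mul_one]
  have e2 : MvPolynomial.aeval w' A * u = c := by
    rw [← h2, mul_assoc, hu, mul_one]
  rwa [e1, e2] at h3

theorem Ev.map {B' : Type} [CommRing B'] [Algebra ℂ B'] (φ : B →ₐ[ℂ] B') {f : K} {c : B} (h : Ev y w f c) :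
    Ev y (fun i => φ (w i)) f (φ c) := by
  obtain ⟨A, D, hD, h1, h2⟩ := h
  have e : ∀ G : MvPolynomial (Fin r) ℂ, MvPolynomial.aeval (fun i => φ (w i)) G = φ (MvPolynomial.aeval w G) := fun G => by
    have := MvPolynomial.comp_aeval_apply w φ G
    rw [this]
  refine ⟨A, D, ?_, h1, ?_⟩
  · rw [e]
    exact hD.map φ
  · rw [e, e, ← map_mul, h2]

end Basic

/-! ## first order -/

/-- the point `w + ε v` -/
def dp (w v : Fin r → ℂ) (i : Fin r) : DualNumber ℂ := TrivSqZeroExt.inl (w i) + TrivSqZeroExt.inr (v i)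

theorem dp_fst (w v : Fin r → ℂ) (i : Fin r) : (dp w v i).fst = w i := by simp [dp]

theorem dp_snd (w v : Fin r → ℂ) (i : Fin r) : (dp w v i).snd = v i := by simp [dp]

/-- the differential of a polynomial -/
def dpl (w v : Fin r → ℂ) (G : MvPolynomial (Fin r) ℂ) : ℂ := ∑ j, eval w (pderiv j G) * v j

theorem dpl_add (w v : Fin r → ℂ) (G H : MvPolynomial (Fin r) ℂ) : dpl w v (G + H) = dpl w v G + dpl w v H := by
  unfold dpl
  rw [← Finset.sum_add_distrib]
  refine Finset.sum_congr rfl fun j _ => ?_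
  rw [map_add, map_add]
  ring

theorem dpl_mul (w v : Fin r → ℂ) (G H : MvPolynomial (Fin r) ℂ) : dpl w v (G * H) = eval w G * dpl w v H + eval w H * dpl w v G := by
  unfold dpl
  rw [Finset.mul_sum, Finset.mul_sum, ← Finset.sum_add_distrib]
  refine Finset.sum_congr rfl fun j _ => ?_
  rw [Derivation.leibniz, map_add, smul_eq_mul, smul_eq_mul, map_mul, map_mul]
  ring

theorem dpl_X (w v : Fin r → ℂ) (i : Fin r) : dpl w v (X i) = v i := by
  classical
  unfold dpl
  rw [Finset.sum_eq_single i]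
  · rw [pderiv_X_self, map_one, one_mul]
  · intro j _ hj
    rw [pderiv_X_of_ne (Ne.symm hj), map_zero, zero_mul]
  · intro h
    exact absurd (Finset.mem_univ i) h

theorem dpl_C (w v : Fin r → ℂ) (c : ℂ) : dpl w v (C c) = 0 := by
  unfold dpl
  simp

theorem aeval_dp (w v : Fin r → ℂ) (G : MvPolynomial (Fin r) ℂ) :
    aeval (dp w v) G = TrivSqZeroExt.inl (eval w G) + TrivSqZeroExt.inr (dpl w v G) := by
  induction G using MvPolynomial.induction_on with
  | C c =>
    rw [aeval_C, eval_C, dpl_C, TrivSqZeroExt.inr_zero, add_zero]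
    rfl
  | add p q hp hq =>
    rw [map_add, hp, hq, map_add, dpl_add, TrivSqZeroExt.inl_add, TrivSqZeroExt.inr_add]
    ring
  | mul_X p i hp =>
    rw [map_mul, hp, aeval_X, map_mul, eval_X, dpl_mul, dpl_X]
    ext
    · simp [dp, TrivSqZeroExt.fst_mul]
    · simp [dp, TrivSqZeroExt.snd_mul]
      ring

theorem fst_aeval_dp (w v : Fin r → ℂ) (G : MvPolynomial (Fin r) ℂ) : (aeval (dp w v) G).fst = eval w G := by
  rw [aeval_dp]
  simp

theorem snd_aeval_dp (w v : Fin r → ℂ) (G : MvPolynomial (Fin r) ℂ) : (aeval (dp w v) G).snd = dpl w v G := by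
  rw [aeval_dp]
  simp

theorem isPtB_dp {y : Fin r → K} {w v : Fin r → ℂ} : IsPtB y (dp w v) ↔ IsPt y w ∧ v ∈ tan y w := by
  constructor
  · intro h
    refine ⟨fun G hG => ?_, fun G hG => ?_⟩
    · rw [← fst_aeval_dp w v, h G hG]
      rfl
    · have h1 := snd_aeval_dp w v G
      rw [h G hG] at h1
      exact h1.symm
  · rintro ⟨h1, h2⟩ G hG
    rw [aeval_dp, h1 G hG, show dpl w v G = 0 from h2 G hG]
    simp

theorem Ev.fst {y : Fin r → K} {w v : Fin r → ℂ} {f : K} {c : DualNumber ℂ} (h : Ev y (dp w v) f c) : Ev y w f c.fst := by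
  have h1 := h.map (TrivSqZeroExt.fstHom ℂ ℂ ℂ)
  have e : (fun i => TrivSqZeroExt.fstHom ℂ ℂ ℂ (dp w v i)) = w := by
    funext i
    exact dp_fst w v i
  rw [e] at h1
  exact h1

end Pool.Agent.GG.Kd
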