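import Pool.Agent.GG.Kd.Defs

/-!
# GG Kd Lin: Noether normalisation by linear forms, injective on a small subspace
-/

set_option autoImplicit false

open MvPolynomial

noncomputable section

namespace Pool.Agent.GG.Kd

variable {K : Type} [Field K] [Algebra ℂ K] {r k : ℕ}

namespace LinAux

theorem prod_aux {A : Type*} [CommRing A] {ι : Type*} (s : Finset ι) (f : ι → Polynomial A) (n : ι → ℕ) (h : ∀ i ∈ s, (f i).natDegree ≤ n i) :
    (∏ i ∈ s, f i).natDegree ≤ ∑ i ∈ s, n i ∧ (∏ i ∈ s, f i).coeff (∑ i ∈ s, n i) = ∏ i ∈ s, (f i).coeff (n i) := by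
  classical
  induction s using Finset.induction_on with
  | empty => simp
  | insert a s ha ih =>
    obtain ⟨h1, h2⟩ := ih fun i hi => h i (Finset.mem_insert_of_mem hi)
    have h3 := h a (Finset.mem_insert_self _ _)
    rw [Finset.prod_insert ha, Finset.sum_insert ha, Finset.prod_insert ha]
    refine ⟨Polynomial.natDegree_mul_le.trans (add_le_add h3 h1), ?_⟩
    rw [Polynomial.coeff_mul_add_eq_of_natDegree_le h3 h1, h2]

theorem coeff_line {A : Type*} [CommRing A] [Algebra ℂ A] {n : ℕ} (s : Fin n → A) (w : Fin n → ℂ) (g : MvPolynomial (Fin n) ℂ) {d : ℕ}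
    (hd : g.totalDegree ≤ d) :
    (aeval (fun j => Polynomial.C (s j) + Polynomial.C (algebraMap ℂ A (w j)) * Polynomial.X) g : Polynomial A).natDegree ≤ d ∧
      (aeval (fun j => Polynomial.C (s j) + Polynomial.C (algebraMap ℂ A (w j)) * Polynomial.X) g : Polynomial A).coeff d =
        algebraMap ℂ A (eval w (homogeneousComponent d g)) := by
  classical
  have hm : ∀ m : Fin n →₀ ℕ, (∏ j, (Polynomial.C (s j) + Polynomial.C (algebraMap ℂ A (w j)) * Polynomial.X) ^ m j : Polynomial A).natDegree ≤ m.degree ∧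
      (∏ j, (Polynomial.C (s j) + Polynomial.C (algebraMap ℂ A (w j)) * Polynomial.X) ^ m j : Polynomial A).coeff m.degree =
        algebraMap ℂ A (∏ j, w j ^ m j) := by
    intro m
    rw [Finsupp.degree_eq_sum]
    have h1 : ∀ j, (Polynomial.C (s j) + Polynomial.C (algebraMap ℂ A (w j)) * Polynomial.X : Polynomial A).natDegree ≤ 1 := fun j => by
      compute_degree
    have h2 : ∀ j, (Polynomial.C (s j) + Polynomial.C (algebraMap ℂ A (w j)) * Polynomial.X : Polynomial A).coeff 1 = algebraMap ℂ A (w j) := fun j => by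
      simp [Polynomial.coeff_C]
    have h3 : ∀ j ∈ Finset.univ, ((Polynomial.C (s j) + Polynomial.C (algebraMap ℂ A (w j)) * Polynomial.X) ^ m j : Polynomial A).natDegree ≤ m j := by
      intro j _
      have := Polynomial.natDegree_pow_le_of_le (m j) (h1 j)
      simpa using this
    obtain ⟨h4, h5⟩ := prod_aux Finset.univ _ _ h3
    refine ⟨h4, ?_⟩
    rw [h5, map_prod]
    refine Finset.prod_congr rfl fun j _ => ?_
    have := Polynomial.coeff_pow_of_natDegree_le (m := m j) (h1 j)
    rw [mul_one] at this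
    rw [this, h2, map_pow]
  have hdeg : ∀ m ∈ g.support, m.degree ≤ d := by
    intro m h
    refine le_trans ?_ hd
    have := le_totalDegree h
    rw [Finsupp.sum_fintype _ _ fun _ => rfl] at this
    rw [Finsupp.degree_eq_sum]
    exact this
  rw [aeval_def, eval₂_eq']
  constructor
  · refine Polynomial.natDegree_sum_le_of_forall_le _ _ fun m h => ?_
    rw [Polynomial.algebraMap_apply]
    exact (Polynomial.natDegree_C_mul_le _ _).trans ((hm m).1.trans (hdeg m h))
  · rw [Polynomial.finsetSum_coeff, eval_eq', map_sum, support_homogeneousComponent, Finset.sum_filter]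
    refine Finset.sum_congr rfl fun m h => ?_
    rw [Polynomial.algebraMap_apply, Polynomial.coeff_C_mul]
    split_ifs with h1
    · rw [coeff_homogeneousComponent, if_pos h1, map_mul, ← (hm m).2, h1]
    · rw [Polynomial.coeff_eq_zero_of_natDegree_lt (lt_of_le_of_lt (hm m).1 (lt_of_le_of_ne (hdeg m h) h1)), mul_zero]

theorem homog_ne {n : ℕ} {g : MvPolynomial (Fin n) ℂ} (hg : g ≠ 0) : homogeneousComponent g.totalDegree g ≠ 0 := by
  classical
  obtain ⟨m, hm, h1⟩ := Finset.exists_mem_eq_sup g.support (support_nonempty.2 hg) fun m => m.sum fun _ e => e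
  intro h
  have h2 := congrArg (coeff m) h
  rw [coeff_homogeneousComponent, if_pos, coeff_zero] at h2
  · exact (mem_support_iff.1 hm) h2
  · rw [totalDegree, h1, Finsupp.sum_fintype _ _ fun _ => rfl, Finsupp.degree_eq_sum]

theorem int_mono {S S' : Subalgebra ℂ K} (h : S ≤ S') {a : K} (ha : IsIntegral S a) : IsIntegral S' a := by
  obtain ⟨p, hp, hpa⟩ := ha
  refine ⟨p.map (Subalgebra.inclusion h).toRingHom, hp.map _, ?_⟩
  rw [Polynomial.eval₂_map]
  exact hpa

theorem int_trans {S : Subalgebra ℂ K} {ι : Type} {t : ι → K} (ht : ∀ j, IsIntegral S (t j)) {a : K}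
    (ha : IsIntegral (Algebra.adjoin ℂ (Set.range t)) a) : IsIntegral S a := by
  have h1 : Algebra.adjoin ℂ (Set.range t) ≤ (integralClosure S K).restrictScalars ℂ := by
    rw [Algebra.adjoin_le_iff]
    rintro _ ⟨j, rfl⟩
    exact ht j
  have h2 : IsIntegral (integralClosure S K) a := by
    have := int_mono h1 ha
    exact this
  exact isIntegral_trans (R := S) (A := integralClosure S K) a h2

/-- one step -/
theorem step (y : Fin r → K) (hK : ∃ z : Fin k → K, IsTranscendenceBasis ℂ z) (T : Submodule ℂ (Fin r → ℂ)) (hT : Module.finrank ℂ T ≤ k) {m : ℕ} (hm : k ≤ m)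
    (h : ∃ L : Fin (m + 1) → Fin r → ℂ, (∀ v ∈ T, (∀ j, ∑ i, L j i * v i = 0) → v = 0) ∧
      ∀ i, IsIntegral (Algebra.adjoin ℂ (Set.range fun j => aeval y (lf (L j)))) (y i)) :
    ∃ L : Fin m → Fin r → ℂ, (∀ v ∈ T, (∀ j, ∑ i, L j i * v i = 0) → v = 0) ∧
      ∀ i, IsIntegral (Algebra.adjoin ℂ (Set.range fun j => aeval y (lf (L j)))) (y i) := by
  classical
  obtain ⟨L, hL, hint⟩ := h
  set t : Fin (m + 1) → K := fun j => aeval y (lf (L j)) with htdef
  -- an equation
  have hdep : ¬ AlgebraicIndependent ℂ t := by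
    intro hi
    obtain ⟨z, hz⟩ := hK
    have h1 := hi.cardinalMk_le_trdeg
    rw [← hz.cardinalMk_eq_trdeg] at h1
    simp only [Cardinal.mk_fin, Nat.cast_le] at h1
    omega
  obtain ⟨g, hg, hg0⟩ : ∃ g : MvPolynomial (Fin (m + 1)) ℂ, aeval t g = 0 ∧ g ≠ 0 := by
    rw [algebraicIndependent_iff] at hdep
    push Not at hdep
    exact hdep
  -- a linear form vanishing on the image of `T`
  let φ : (Fin r → ℂ) →ₗ[ℂ] (Fin (m + 1) → ℂ) := LinearMap.pi fun j => ∑ i, L j i • LinearMap.proj i
  have hφ : ∀ v j, φ v j = ∑ i, L j i * v i := by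
    intro v j
    simp [φ]
  have hlt : T.map φ < ⊤ := by
    refine lt_top_iff_ne_top.2 fun htop => ?_
    have h1 : Module.finrank ℂ (T.map φ) ≤ k := (Submodule.finrank_map_le φ T).trans hT
    rw [htop, finrank_top, Module.finrank_fin_fun] at h1
    omega
  obtain ⟨h, hh, hker⟩ := Submodule.exists_le_ker_of_lt_top _ hlt
  let H : MvPolynomial (Fin (m + 1)) ℂ := lf fun j => h (Pi.single j 1)
  have hH : ∀ w, eval w H = h w := by
    intro w
    rw [eval_lf]
    conv_rhs => rw [← Finset.univ_sum_single w, map_sum]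
    refine Finset.sum_congr rfl fun j _ => ?_
    have : (Pi.single j (w j) : Fin (m + 1) → ℂ) = w j • Pi.single j 1 := by
      rw [← Pi.single_smul, smul_eq_mul, mul_one]
    rw [this, map_smul, smul_eq_mul, mul_comm]
  have hH0 : H ≠ 0 := by
    intro h0
    refine hh (LinearMap.ext fun w => ?_)
    rw [← hH, h0, map_zero, LinearMap.zero_apply]
  obtain ⟨w, hw⟩ : ∃ w, eval w (homogeneousComponent g.totalDegree g * H) ≠ 0 := by
    by_contra hcon
    push Not at hcon
    refine mul_ne_zero (homog_ne hg0) hH0 (MvPolynomial.funext fun x => ?_)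
    rw [hcon, map_zero]
  rw [map_mul] at hw
  have hw1 : eval w (homogeneousComponent g.totalDegree g) ≠ 0 := left_ne_zero_of_mul hw
  have hw2 : h w ≠ 0 := by
    rw [← hH]
    exact right_ne_zero_of_mul hw
  have hw0 : w ≠ 0 := by
    rintro rfl
    exact hw2 (map_zero h)
  obtain ⟨i₀, hi₀⟩ : ∃ i₀, w i₀ ≠ 0 := by
    by_contra hcon
    push Not at hcon
    exact hw0 (funext hcon)
  -- the new forms
  refine ⟨fun j => L (i₀.succAbove j) - (w (i₀.succAbove j) / w i₀) • L i₀, ?_, ?_⟩
  · intro v hv h0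
    have h1 : φ v = (φ v i₀ / w i₀) • w := by
      funext j
      rcases Fin.eq_self_or_eq_succAbove i₀ j with rfl | ⟨j', rfl⟩
      · rw [Pi.smul_apply, smul_eq_mul, div_mul_cancel₀ _ hi₀]
      · have h2 := h0 j'
        simp only [Pi.sub_apply, Pi.smul_apply, smul_eq_mul, sub_mul, Finset.sum_sub_distrib, mul_assoc, ← Finset.mul_sum] at h2
        rw [← hφ, ← hφ, sub_eq_zero] at h2
        rw [h2, Pi.smul_apply, smul_eq_mul]
        ring
    have h2 : φ v i₀ / w i₀ = 0 := by
      have h3 : h (φ v) = 0 := hker (Submodule.mem_map_of_mem hv)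
      rw [h1, map_smul, smul_eq_mul] at h3
      exact (mul_eq_zero.1 h3).resolve_right hw2
    rw [h2, zero_smul] at h1
    refine hL v hv fun j => ?_
    rw [← hφ, h1, Pi.zero_apply]
  · -- integrality
    set s : Fin m → K := fun j => aeval y (lf (L (i₀.succAbove j) - (w (i₀.succAbove j) / w i₀) • L i₀)) with hsdef
    set S := Algebra.adjoin ℂ (Set.range s) with hS
    set x : K := (w i₀)⁻¹ • t i₀ with hx
    have hs : ∀ j, s j = t (i₀.succAbove j) - w (i₀.succAbove j) • x := by
      intro j
      simp only [hsdef, hx, htdef, aeval_lf, Pi.sub_apply, Pi.smul_apply, sub_smul, Finset.sum_sub_distrib, Finset.smul_sum, smul_smul, smul_eq_mul]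
      congr 1
      refine Finset.sum_congr rfl fun i _ => ?_
      congr 1
      ring
    let s' : Fin (m + 1) → S := i₀.insertNth 0 fun j => ⟨s j, Algebra.subset_adjoin ⟨j, rfl⟩⟩
    have hs' : ∀ j, t j = (s' j : K) + w j • x := by
      intro j
      rcases Fin.eq_self_or_eq_succAbove i₀ j with rfl | ⟨j', rfl⟩
      · simp only [s', Fin.insertNth_apply_same, hx, smul_smul, mul_inv_cancel₀ hi₀, one_smul]
        simp
      · simp only [s', Fin.insertNth_apply_succAbove, hs]
        simp
    have hxint : IsIntegral S x := by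
      obtain ⟨h1, h2⟩ := coeff_line s' w g le_rfl
      set p : Polynomial S := aeval (fun j => Polynomial.C (s' j) + Polynomial.C (algebraMap ℂ S (w j)) * Polynomial.X) g with hp
      have hu : IsUnit (p.coeff g.totalDegree) := by
        rw [h2]
        exact (isUnit_iff_ne_zero.2 hw1).map (algebraMap ℂ S)
      have hpx : Polynomial.aeval x p = 0 := by
        have h3 : (Polynomial.aeval x : Polynomial S →ₐ[S] K).restrictScalars ℂ p = aeval t g := by
          rw [hp, ← AlgHom.comp_apply]
          congr 1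
          refine MvPolynomial.algHom_ext fun j => ?_
          simp only [AlgHom.comp_apply, aeval_X, AlgHom.restrictScalars_apply, map_add, map_mul, Polynomial.aeval_C, Polynomial.aeval_X]
          rw [hs' j, Algebra.smul_def]
          rfl
        rw [hg] at h3
        exact h3
      obtain ⟨u, hu'⟩ := hu
      refine ⟨Polynomial.C (↑u⁻¹ : S) * p, ?_, ?_⟩
      · have h4 : (Polynomial.C (↑u⁻¹ : S) * p).natDegree ≤ g.totalDegree := (Polynomial.natDegree_C_mul_le _ _).trans h1
        refine Polynomial.monic_of_natDegree_le_of_coeff_eq_one _ h4 ?_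
        rw [Polynomial.coeff_C_mul, ← hu', Units.inv_mul]
      · rw [Polynomial.eval₂_mul, ← Polynomial.aeval_def x p, hpx, mul_zero]
    have htint : ∀ j, IsIntegral S (t j) := by
      intro j
      rw [hs' j, Algebra.smul_def]
      refine IsIntegral.add (isIntegral_algebraMap (x := s' j)) (IsIntegral.mul ?_ hxint)
      exact isIntegral_algebraMap (R := S) (x := algebraMap ℂ S (w j))
    exact fun i => int_trans htint (hint i)

theorem base (y : Fin r → K) (T : Submodule ℂ (Fin r → ℂ)) :
    ∃ L : Fin (k + r) → Fin r → ℂ, (∀ v ∈ T, (∀ j, ∑ i, L j i * v i = 0) → v = 0) ∧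
      ∀ i, IsIntegral (Algebra.adjoin ℂ (Set.range fun j => aeval y (lf (L j)))) (y i) := by
  classical
  refine ⟨Fin.append 0 fun i => Pi.single i 1, fun v _ h0 => ?_, fun i => ?_⟩
  · funext i
    have := h0 (Fin.natAdd k i)
    rw [Fin.append_right] at this
    simpa [Pi.single_apply] using this
  · have h1 : y i ∈ Algebra.adjoin ℂ (Set.range fun j => aeval y (lf ((Fin.append 0 fun i => Pi.single i 1 : Fin (k + r) → Fin r → ℂ) j))) := by
      refine Algebra.subset_adjoin ⟨Fin.natAdd k i, ?_⟩
      simp only [Fin.append_right, aeval_lf]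
      rw [Finset.sum_eq_single i]
      · simp
      · intro b _ hb
        simp [hb]
      · intro h
        exact absurd (Finset.mem_univ i) h
    exact isIntegral_algebraMap (R := Algebra.adjoin ℂ _) (x := ⟨y i, h1⟩)

end LinAux

/-- Noether normalisation by linear forms, injective on a subspace `T` of dimension `≤ k`. -/
theorem exists_lin (y : Fin r → K) (hK : ∃ z : Fin k → K, IsTranscendenceBasis ℂ z) (T : Submodule ℂ (Fin r → ℂ)) (hT : Module.finrank ℂ T ≤ k) :
    ∃ L : Fin k → Fin r → ℂ, (∀ v ∈ T, (∀ j, ∑ i, L j i * v i = 0) → v = 0) ∧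
      ∀ i, IsIntegral (Algebra.adjoin ℂ (Set.range fun j => aeval y (lf (L j)))) (y i) := by
  have h : ∀ e ≤ r, ∃ L : Fin (k + (r - e)) → Fin r → ℂ, (∀ v ∈ T, (∀ j, ∑ i, L j i * v i = 0) → v = 0) ∧
      ∀ i, IsIntegral (Algebra.adjoin ℂ (Set.range fun j => aeval y (lf (L j)))) (y i) := by
    intro e
    induction e with
    | zero => exact fun _ => LinAux.base y T
    | succ e ih =>
      intro he
      have h1 := ih (by omega)
      have h2 : k + (r - e) = k + (r - (e + 1)) + 1 := by omega
      rw [h2] at h1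
      exact LinAux.step y hK T hT (by omega) h1
  have h1 := h r le_rfl
  rw [Nat.sub_self, add_zero] at h1
  exact h1

end Pool.Agent.GG.Kd
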