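import Pool.Agent.GG.Kd.Defs
import Pool.Agent.GG.Kd.Lin

/-!
# GG Kd Gch: a linear Noether normalisation with equations, adapted to a smooth point
-/

set_option autoImplicit false

open MvPolynomial

noncomputable section

namespace Pool.Agent.GG.Kd

variable {K : Type} [Field K] [Algebra ℂ K] {r k : ℕ}

/-- `K` is algebraic over `ℂ[t]` -/
theorem Gch_isAlgebraic {y : Fin r → K} (hgen : IntermediateField.adjoin ℂ (Set.range y) = ⊤) {s : Set K}
    (h : ∀ i, IsIntegral (Algebra.adjoin ℂ s) (y i)) : Algebra.IsAlgebraic (Algebra.adjoin ℂ s) K := by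
  refine ⟨fun x => ?_⟩
  have hx : x ∈ IntermediateField.adjoin ℂ (Set.range y) := by
    rw [hgen]
    exact IntermediateField.mem_top
  induction hx using IntermediateField.adjoin_induction with
  | mem x hx =>
    obtain ⟨i, rfl⟩ := hx
    exact (h i).isAlgebraic
  | algebraMap c =>
    rw [IsScalarTower.algebraMap_apply ℂ (Algebra.adjoin ℂ s) K]
    exact isAlgebraic_algebraMap _
  | add x z _ _ hx hz => exact hx.add hz
  | inv x _ hx => exact hx.inv
  | mul x z _ _ hx hz => exact hx.mul hz

/-- At a smooth point `w` there is a linear Noether normalisation with `J (w) ≠ 0`. -/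
theorem exists_dat (y : Fin r → K) (hK : ∃ z : Fin k → K, IsTranscendenceBasis ℂ z) (hgen : IntermediateField.adjoin ℂ (Set.range y) = ⊤)
    {w : Fin r → ℂ} (hs : Module.finrank ℂ (tan y w) ≤ k) : ∃ d : Dat y k, eval w d.J ≠ 0 := by
  classical
  obtain ⟨L, hinj, hint⟩ := exists_lin y hK (tan y w) hs
  have hbasis : IsTranscendenceBasis ℂ (fun j => aeval y (lf (L j))) := by
    obtain ⟨z, hz⟩ := hK
    have := Gch_isAlgebraic hgen hint
    exact Algebra.IsAlgebraic.isTranscendenceBasis_of_lift_le_trdeg_of_finite ℂ _ hz.lift_cardinalMk_eq_trdeg.le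
  set D : MvPolynomial (Fin r) ℂ → (Fin r → ℂ) := fun G i => eval w (pderiv i G) with hD
  set S : Set (MvPolynomial (Fin r) ℂ) := {G | (∃ j, G = lf (L j)) ∨ aeval y G = 0} with hS
  have hspan : Submodule.span ℂ (D '' S) = ⊤ := by
    by_contra hne
    obtain ⟨φ, hφ0, hφ⟩ := Submodule.exists_le_ker_of_lt_top _ (lt_top_iff_ne_top.2 hne)
    have hφs : ∀ a : Fin r → ℂ, φ a = ∑ i, a i * φ (Pi.single i 1) := by
      intro a
      conv_lhs => rw [← Finset.univ_sum_single a]
      rw [map_sum]
      refine Finset.sum_congr rfl fun i _ => ?_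
      have e : (Pi.single i (a i) : Fin r → ℂ) = a i • Pi.single i 1 := by
        rw [← Pi.single_smul, smul_eq_mul, mul_one]
      rw [e, map_smul, smul_eq_mul]
    have hz : ∀ G ∈ S, ∑ i, D G i * φ (Pi.single i 1) = 0 := by
      intro G hG
      rw [← hφs]
      exact hφ (Submodule.subset_span ⟨G, hG, rfl⟩)
    have h1 : (fun i => φ (Pi.single i 1)) ∈ tan y w := fun G hG => hz G (Or.inr hG)
    have h2 : ∀ j, ∑ i, L j i * φ (Pi.single i 1) = 0 := by
      intro j
      rw [← hz (lf (L j)) (Or.inl ⟨j, rfl⟩)]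
      refine Finset.sum_congr rfl fun i _ => ?_
      have : D (lf (L j)) i = L j i := by
        show eval w (pderiv i (lf (L j))) = L j i
        rw [pderiv_lf, eval_C]
      rw [this]
    have h3 := hinj _ h1 h2
    apply hφ0
    have h4 : ∀ i, φ (Pi.single i 1) = 0 := fun i => congrFun h3 i
    refine LinearMap.ext fun a => ?_
    rw [hφs, Finset.sum_eq_zero fun i _ => by rw [h4, mul_zero]]
    rfl
  have hr : Module.finrank ℂ (Submodule.span ℂ (D '' S)) = r := by
    rw [hspan, finrank_top, Module.finrank_fin_fun]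
  obtain ⟨f, hf1, -, hf3⟩ := Submodule.exists_fun_fin_finrank_span_eq ℂ (D '' S)
  choose G hG1 hG2 using fun i : Fin r => hf1 (Fin.cast hr.symm i)
  refine ⟨⟨L, hbasis, hint, G, hG1⟩, ?_⟩
  have hdet : eval w (Matrix.det fun i j => pderiv j (G i)) = Matrix.det (Matrix.of fun i j => D (G i) j) := by
    rw [RingHom.map_det]
    rfl
  show eval w (Matrix.det fun i j => pderiv j (G i)) ≠ 0
  rw [hdet]
  have hli : LinearIndependent ℂ fun i : Fin r => D (G i) := by
    have : (fun i : Fin r => D (G i)) = f ∘ Fin.cast hr.symm := funext fun i => hG2 i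
    rw [this]
    exact hf3.comp _ (Fin.cast_injective _)
  have hu : IsUnit (Matrix.of fun i j => D (G i) j) := Matrix.linearIndependent_rows_iff_isUnit.1 hli
  exact ((Matrix.isUnit_iff_isUnit_det _).1 hu).ne_zero

end Pool.Agent.GG.Kd
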