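import Pool.Agent.GG.Kd.Prj
import Pool.Agent.GG.Kd.Gch
import Pool.Agent.GG.Kd.Drv
import Pool.Agent.H68.KR.KOD
import Pool.Agent.GG.Defs

/-!
# GG Kd Glu: the section on the cone

`Plc P k M`: a rational form `ω` and a function `H` such that `H (x_l / x_o) ω^M` is regular along all prime divisors, for all `l`.  The section of `K^M (-1)` is
`H ω^M / x_o`; in the chart `x_a = 1` it is `H (x_a / x_o) ω^M / x_a`.
-/

set_option autoImplicit false

open MvPolynomial
open Pool.Agent.H17LG.Variety (FunField ratio PoleAtMost IsLogGeneralType)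
open Pool.Agent.H23.Fano (Form PrimeDivisorOver)
open Pool.Agent.H62.FC (Homog)
open Pool.Agent.H68.KR (hmz hmz_isHomogeneous)
open Pool.Agent.H13.SM (conTan cone)

noncomputable section

namespace Pool.Agent.GG.Kd

variable {N : ℕ}

/-- a section of `K^M (-1)`, regular along all prime divisors -/
structure Plc (P : Ideal (MvPolynomial (Fin (N + 1)) ℂ)) [P.IsPrime] (k M : ℕ) where
  /-- the rational form -/
  ω : Form (FunField P) k
  ne : ω ≠ 0
  /-- the function -/
  H : FunField P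
  H_ne : H ≠ 0
  /-- the index of a coordinate which does not vanish -/
  o : Fin (N + 1)
  ho : X o ∉ P
  pole : ∀ l, X l ∉ P → ∀ D : PrimeDivisorOver (FunField P) k, PoleAtMost 0 D M (H * ratio P l o) ω

variable {P : Ideal (MvPolynomial (Fin (N + 1)) ℂ)} [P.IsPrime] {k M : ℕ}

/-- rational forms in coordinates -/
theorem exists_mk {K : Type} [Field K] [Algebra ℂ K] {r : ℕ} {y : Fin r → K} (d : Dat y k) (ω : Form K k) : ∃ W : K, ω = Form.mk W d.t := by
  obtain ⟨b, hb⟩ := Pool.Agent.H23.exists_basis_kaehler d.basis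
  refine ⟨Pool.Agent.H23.fc b ω, ?_⟩
  have h1 := Pool.Agent.H23.eq_fc_smul b (show ⋀[K]^k Ω[K⁄ℂ] from ω)
  have h3 : (fun i => b i) = fun i => KaehlerDifferential.D ℂ K (d.t i) := funext hb
  rw [h3] at h1
  exact h1

/-- `s` is the value of the section at `(x, v)`, computed in some chart with some coordinates. -/
def Plc.IsVal (p : Plc P k M) (x : Fin (N + 1) → ℂ) (v : Fin k → Fin (N + 1) → ℂ) (s : ℂ) : Prop :=
  ∃ (a : Fin (N + 1)) (d : Dat (ya P a) k) (W : FunField P) (c : ℂ), x a ≠ 0 ∧ eval (wa a x) d.J ≠ 0 ∧ p.ω = Form.mk W d.t ∧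
    Ev (ya P a) (wa a x) (p.H * ratio P a p.o * W ^ M) c ∧ s = (x a)⁻¹ * (c * (Matrix.of fun l j => d.tau (va a x (v l)) j).det ^ M)

theorem Plc.IsVal.unique (p : Plc P (k + 1) M) (hz : ∃ z : Fin (k + 1) → FunField P, IsTranscendenceBasis ℂ z) {x : Fin (N + 1) → ℂ}
    (hx : x ∈ cone P) {v : Fin (k + 1) → Fin (N + 1) → ℂ} (hv : ∀ l, v l ∈ conTan P x) {s s' : ℂ} (h : p.IsVal x v s) (h' : p.IsVal x v s') :
    s = s' := by
  obtain ⟨a, d, W, c, ha, hJ, hω, hc, rfl⟩ := h
  obtain ⟨b, d', W', c', hb, hJ', hω', hc', rfl⟩ := h'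
  have haP : X a ∉ P := fun h => ha (by have := hx.2 _ h; rwa [eval_X] at this)
  have hbP : X b ∉ P := fun h => hb (by have := hx.2 _ h; rwa [eval_X] at this)
  have hH : p.H * ratio P b p.o = ratio P b a * (p.H * ratio P a p.o) := by
    obtain ⟨g, hga, -, -, h3⟩ := exists_gen hz haP
    rw [h3, h3, h3]
    by_cases hgo : g p.o = 0
    · rw [hgo, div_zero, div_zero, mul_zero, mul_zero]
    · field_simp
  have h1 := d.compare (isPt_wa hz hx ha) hJ d' (w' := wa b x) (v := fun l => va a x (v l)) (v' := fun l => va b x (v l))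
    (fun i => ev_w hz hx ha hb i) (fun l => va_mem hz hx ha (hv l)) (fun l i => ev_wv hz hx ha hb (hv l) i) hH
    (hω.symm.trans hω') hc hc' (Ev.var (ya P a) (wa a x) b)
  rw [← mul_assoc] at h1
  have h2 : (x b)⁻¹ * (c' * (Matrix.of fun l j => d'.tau (va b x (v l)) j).det ^ M) =
      (x b)⁻¹ * (wa a x b * c * (Matrix.of fun l j => d.tau (va a x (v l)) j).det ^ M) := by rw [h1]
  rw [h2, wa]
  field_simp

variable (p : Plc P (k + 1) M)

/-- the section in the chart `x_a = 1`, near the points with `J ≠ 0` -/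
theorem Plc.exists_rep (hz : ∃ z : Fin (k + 1) → FunField P, IsTranscendenceBasis ℂ z) {a : Fin (N + 1)} (ha : X a ∉ P)
    (d : Dat (ya P a) (k + 1)) : ∃ (W : FunField P) (A : MvPolynomial (Fin (N + 1)) ℂ), p.ω = Form.mk W d.t ∧
      aeval (ya P a) d.J ^ (2 * (k + 1) * M + 1) * (p.H * ratio P a p.o * W ^ M) = aeval (ya P a) A := by
  obtain ⟨W, hW⟩ := exists_mk d p.ω
  have h1 := d.reg (adjoin_ya hz ha) (M := M) (H := p.H * ratio P a p.o) (W := W) fun E _ => by
    rw [← hW]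
    exact p.pole a ha E
  rw [Algebra.adjoin_range_eq_range_aeval] at h1
  obtain ⟨A, hA⟩ := h1
  exact ⟨W, A, hW, hA.symm⟩

/-- the value from such a representation -/
theorem Plc.isVal_of_rep (hz : ∃ z : Fin (k + 1) → FunField P, IsTranscendenceBasis ℂ z) {a : Fin (N + 1)} (d : Dat (ya P a) (k + 1))
    {W : FunField P} {A : MvPolynomial (Fin (N + 1)) ℂ} {e : ℕ} (hW : p.ω = Form.mk W d.t)
    (hA : aeval (ya P a) d.J ^ e * (p.H * ratio P a p.o * W ^ M) = aeval (ya P a) A) {x : Fin (N + 1) → ℂ} (hx : x ∈ cone P) (hxa : x a ≠ 0)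
    (hJ : eval (wa a x) d.J ≠ 0) (v : Fin (k + 1) → Fin (N + 1) → ℂ) :
    p.IsVal x v ((x a)⁻¹ * (eval (wa a x) A * (eval (wa a x) d.J ^ e)⁻¹ * (Matrix.of fun l j => d.tau (va a x (v l)) j).det ^ M)) := by
  refine ⟨a, d, W, _, hxa, hJ, hW, ?_, rfl⟩
  have hw := isPt_wa hz hx hxa
  have hJy : aeval (ya P a) d.J ≠ 0 := fun h => hJ (hw _ h)
  have e1 : p.H * ratio P a p.o * W ^ M = aeval (ya P a) A / aeval (ya P a) d.J ^ e := by
    rw [← hA]
    field_simp
  rw [e1]
  have h1 := Ev.poly (ya P a) (wa a x) A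
  have h2 := (Ev.poly (ya P a) (wa a x) d.J).pow e
  rw [MvPolynomial.aeval_eq_eval] at h1 h2
  exact h1.div (isPtB_iff.2 hw) h2 (mul_inv_cancel₀ (pow_ne_zero _ hJ))

theorem Plc.exists_val (hP : Homog P) (hz : ∃ z : Fin (k + 1) → FunField P, IsTranscendenceBasis ℂ z) {x : Fin (N + 1) → ℂ} (hx : x ∈ cone P)
    (hsm : Module.finrank ℂ (conTan P x) ≤ k + 2) (v : Fin (k + 1) → Fin (N + 1) → ℂ) : ∃ s, p.IsVal x v s := by
  obtain ⟨a, ha⟩ : ∃ a, x a ≠ 0 := by
    by_contra h
    push Not at h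
    exact hx.1 (funext h)
  have haP : X a ∉ P := fun h => ha (by have := hx.2 _ h; rwa [eval_X] at this)
  obtain ⟨d, hJ⟩ := exists_dat (ya P a) hz (adjoin_ya hz haP) (finrank_tan hP hz hx ha hsm)
  obtain ⟨W, A, hW, hA⟩ := p.exists_rep hz haP d
  exact ⟨_, p.isVal_of_rep hz d hW hA hx ha hJ v⟩

open Classical in
/-- the section -/
def Plc.val (x : Fin (N + 1) → ℂ) (v : Fin (k + 1) → Fin (N + 1) → ℂ) : ℂ := if h : ∃ s, p.IsVal x v s then h.choose else 0

theorem Plc.val_spec (hP : Homog P) (hz : ∃ z : Fin (k + 1) → FunField P, IsTranscendenceBasis ℂ z) {x : Fin (N + 1) → ℂ} (hx : x ∈ cone P)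
    (hsm : Module.finrank ℂ (conTan P x) ≤ k + 2) (v : Fin (k + 1) → Fin (N + 1) → ℂ) : p.IsVal x v (p.val x v) := by
  have h := p.exists_val hP hz hx hsm v
  rw [Plc.val, dif_pos h]
  exact h.choose_spec

theorem Plc.val_eq (hP : Homog P) (hz : ∃ z : Fin (k + 1) → FunField P, IsTranscendenceBasis ℂ z) {x : Fin (N + 1) → ℂ} (hx : x ∈ cone P)
    (hsm : Module.finrank ℂ (conTan P x) ≤ k + 2) {v : Fin (k + 1) → Fin (N + 1) → ℂ} (hv : ∀ l, v l ∈ conTan P x) {s : ℂ} (h : p.IsVal x v s) :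
    p.val x v = s :=
  (p.val_spec hP hz hx hsm v).unique p hz hx hv h

/-! ## the rules -/

theorem va_add_smul {a : Fin (N + 1)} {x : Fin (N + 1) → ℂ} (v : Fin (N + 1) → ℂ) (c : ℂ) : va a x (v + c • x) = va a x v := by
  funext i
  simp only [va, Pi.add_apply, Pi.smul_apply, smul_eq_mul]
  congr 1
  ring

theorem va_scale {a : Fin (N + 1)} {x : Fin (N + 1) → ℂ} (v : Fin (N + 1) → ℂ) {c : ℂ} (hc : c ≠ 0) : va a (c • x) (c • v) = va a x v := by
  funext i
  simp only [va, Pi.smul_apply, smul_eq_mul]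
  by_cases hxa : x a = 0
  · rw [hxa]
    simp
  · field_simp

theorem wa_scale {a : Fin (N + 1)} {x : Fin (N + 1) → ℂ} {c : ℂ} (hc : c ≠ 0) : wa a (c • x) = wa a x := by
  funext i
  simp only [wa, Pi.smul_apply, smul_eq_mul]
  rw [mul_div_mul_left _ _ hc]

theorem tau_va_sum {K : Type} [Field K] [Algebra ℂ K] {y : Fin (N + 1) → K} (d : Dat y k) {a : Fin (N + 1)} {x : Fin (N + 1) → ℂ} {m : ℕ}
    (b : Fin m → ℂ) (v : Fin m → Fin (N + 1) → ℂ) (j : Fin k) :
    d.tau (va a x (∑ l, b l • v l)) j = ∑ l, b l * d.tau (va a x (v l)) j := by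
  unfold Dat.tau
  simp only [Finset.mul_sum]
  rw [Finset.sum_comm]
  refine Finset.sum_congr rfl fun i _ => ?_
  have h1 : va a x (∑ l, b l • v l) i = ∑ l, b l * va a x (v l) i := by
    simp only [va, Finset.sum_apply, Pi.smul_apply, smul_eq_mul]
    rw [Finset.sum_mul, Finset.mul_sum, ← Finset.sum_sub_distrib, Finset.sum_div]
    refine Finset.sum_congr rfl fun l _ => ?_
    ring
  rw [h1, Finset.mul_sum]
  exact Finset.sum_congr rfl fun l _ => by ring

omit [P.IsPrime] in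
theorem cone_smul' (hP : Homog P) {x : Fin (N + 1) → ℂ} (hx : x ∈ cone P) {c : ℂ} (hc : c ≠ 0) : c • x ∈ cone P := by
  refine ⟨smul_ne_zero hc hx.1, fun Q hQ => ?_⟩
  rw [← MvPolynomial.sum_homogeneousComponent Q, map_sum]
  refine Finset.sum_eq_zero fun d _ => ?_
  have h1 := aeval_scale (homogeneousComponent_isHomogeneous d Q) c x
  rw [MvPolynomial.aeval_eq_eval, MvPolynomial.aeval_eq_eval, hx.2 _ (hP Q hQ d), mul_zero] at h1
  exact h1

theorem conTan_scale (hP : Homog P) {x v : Fin (N + 1) → ℂ} (hx : x ∈ cone P) (hv : v ∈ conTan P x) (c : ℂ) : c • v ∈ conTan P (c • x) := by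
  intro Q hQ
  have h1 : ∀ d, dpl (c • x) (c • v) (homogeneousComponent d Q) = 0 := by
    intro d
    have h2 := aeval_dp_mem hx hv (hP Q hQ d)
    have h3 := aeval_scale (homogeneousComponent_isHomogeneous d Q) (TrivSqZeroExt.inl c : DualNumber ℂ) (dp x v)
    rw [h2, mul_zero] at h3
    have e : (fun i => (TrivSqZeroExt.inl c : DualNumber ℂ) * dp x v i) = dp (c • x) (c • v) := by
      funext i
      ext
      · simp [dp]
      · simp [dp, TrivSqZeroExt.snd_mul]
    rw [e] at h3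
    rw [← snd_aeval_dp, h3]
    rfl
  have h3 : dpl (c • x) (c • v) (∑ d ∈ Finset.range (Q.totalDegree + 1), homogeneousComponent d Q) =
      ∑ d ∈ Finset.range (Q.totalDegree + 1), dpl (c • x) (c • v) (homogeneousComponent d Q) := by
    induction Finset.range (Q.totalDegree + 1) using Finset.induction_on with
    | empty =>
      rw [Finset.sum_empty, Finset.sum_empty]
      unfold dpl
      simp
    | insert c s hc ih => rw [Finset.sum_insert hc, Finset.sum_insert hc, dpl_add, ih]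
  rw [MvPolynomial.sum_homogeneousComponent, Finset.sum_eq_zero fun d _ => h1 d] at h3
  rw [← h3]
  unfold dpl
  exact Finset.sum_congr rfl fun j _ => mul_comm _ _

end Pool.Agent.GG.Kd
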