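import Pool.Agent.GG.Kd.Glu

/-!
# GG Kd Pol: the section is given by polynomials
-/

set_option autoImplicit false

open MvPolynomial
open Pool.Agent.H17LG.Variety (FunField ratio PoleAtMost IsLogGeneralType)
open Pool.Agent.H23.Fano (Form PrimeDivisorOver)
open Pool.Agent.H62.FC (Homog)
open Pool.Agent.H68.KR (hmz hmz_isHomogeneous)
open Pool.Agent.H13.SM (conTan cone)

noncomputable section

namespace Pool.Agent.GG.Kd

variable {N : ℕ} {P : Ideal (MvPolynomial (Fin (N + 1)) ℂ)} [P.IsPrime] {k M : ℕ}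

/-- the variables of the polynomials of the section -/
abbrev XV (N k : ℕ) : Type := Fin (N + 1) ⊕ (Fin k × Fin (N + 1))

/-- the point `(x, v)` -/
abbrev xv (x : Fin (N + 1) → ℂ) (v : Fin k → Fin (N + 1) → ℂ) : XV N k → ℂ := Sum.elim x fun p => v p.1 p.2

/-- the numerator of the differential of `t j`, applied to `v l`, in the chart `x_a = 1` -/
def tnum {K : Type} [Field K] [Algebra ℂ K] {y : Fin (N + 1) → K} {k' : ℕ} (d : Dat y k') (a : Fin (N + 1)) (l : Fin k) (j : Fin k') :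
    MvPolynomial (XV N k) ℂ :=
  ∑ i, C (d.L j i) * (X (Sum.inr (l, i)) * X (Sum.inl a) - X (Sum.inl i) * X (Sum.inr (l, a)))

theorem eval_tnum {K : Type} [Field K] [Algebra ℂ K] {y : Fin (N + 1) → K} {k' : ℕ} (d : Dat y k') {a : Fin (N + 1)} {x : Fin (N + 1) → ℂ}
    (ha : x a ≠ 0) (v : Fin k → Fin (N + 1) → ℂ) (l : Fin k) (j : Fin k') :
    d.tau (va a x (v l)) j = eval (xv x v) (tnum d a l j) * (x a ^ 2)⁻¹ := by
  unfold Dat.tau tnum va
  rw [map_sum, Finset.sum_mul]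
  refine Finset.sum_congr rfl fun i _ => ?_
  simp only [map_mul, map_sub, eval_C, eval_X, Sum.elim_inl, Sum.elim_inr]
  field_simp

theorem det_tau {K : Type} [Field K] [Algebra ℂ K] {y : Fin (N + 1) → K} (d : Dat y k) {a : Fin (N + 1)} {x : Fin (N + 1) → ℂ}
    (ha : x a ≠ 0) (v : Fin k → Fin (N + 1) → ℂ) :
    (Matrix.of fun l j => d.tau (va a x (v l)) j).det = eval (xv x v) (Matrix.of fun l j => tnum d a l j).det * ((x a ^ 2)⁻¹) ^ k := by
  have h1 : (Matrix.of fun l j => d.tau (va a x (v l)) j) = (x a ^ 2)⁻¹ • ((eval (xv x v)).mapMatrix (Matrix.of fun l j => tnum d a l j)) := by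
    ext l j
    rw [Matrix.smul_apply, RingHom.mapMatrix_apply, Matrix.map_apply, Matrix.of_apply, Matrix.of_apply, eval_tnum d ha v l j, smul_eq_mul, mul_comm]
  rw [h1, Matrix.det_smul, Fintype.card_fin, ← RingHom.map_det, mul_comm]

theorem eval_hmz' {a : Fin (N + 1)} (G : MvPolynomial (Fin (N + 1)) ℂ) {x : Fin (N + 1) → ℂ} (ha : x a ≠ 0) :
    eval x (hmz a G.totalDegree G) = x a ^ G.totalDegree * eval (wa a x) G := by
  have h1 := aeval_hmz (le_refl G.totalDegree) (y := x) (l := a) (mul_inv_cancel₀ ha)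
  rw [MvPolynomial.aeval_eq_eval, MvPolynomial.aeval_eq_eval] at h1
  have e : (fun i => (x a)⁻¹ * x i) = wa a x := by
    funext i
    rw [wa, div_eq_inv_mul]
  rw [e] at h1
  exact h1

theorem Plc.exists_poly (p : Plc P (k + 1) M) (hP : Homog P) (hz : ∃ z : Fin (k + 1) → FunField P, IsTranscendenceBasis ℂ z)
    (hsm : ∀ x ∈ cone P, Module.finrank ℂ (conTan P x) ≤ k + 2) {a : Fin (N + 1)} (ha : X a ∉ P) (d : Dat (ya P a) (k + 1)) :
    ∃ (g : MvPolynomial (Fin (N + 1)) ℂ) (A : MvPolynomial (XV N (k + 1)) ℂ),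
      (∀ x ∈ cone P, x a ≠ 0 → eval (wa a x) d.J ≠ 0 → eval x g ≠ 0) ∧
      ∀ x ∈ cone P, ∀ v : Fin (k + 1) → Fin (N + 1) → ℂ, (∀ l, v l ∈ conTan P x) → eval x g * p.val x v = eval (xv x v) A := by
  obtain ⟨W, A₀, hW, hA⟩ := p.exists_rep hz ha d
  obtain ⟨e, he⟩ : ∃ e, e = 2 * (k + 1) * M + 1 := ⟨_, rfl⟩
  rw [← he] at hA
  set J' := hmz a d.J.totalDegree d.J with hJ'
  set A' := hmz a A₀.totalDegree A₀ with hA'
  set q := 1 + A₀.totalDegree + 2 * (k + 1) * M with hq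
  refine ⟨(X a * J') * (J' ^ e * X a ^ q),
    rename Sum.inl (X a * J') * (rename Sum.inl A' * rename Sum.inl (X a) ^ (d.J.totalDegree * e) * (Matrix.of fun l j => tnum d a l j).det ^ M), ?_, ?_⟩
  · intro x hx hxa hJ
    have h1 : eval x J' ≠ 0 := by
      rw [hJ', eval_hmz' _ hxa]
      exact mul_ne_zero (pow_ne_zero _ hxa) hJ
    rw [map_mul, map_mul, map_mul, map_pow, map_pow, eval_X]
    exact mul_ne_zero (mul_ne_zero hxa h1) (mul_ne_zero (pow_ne_zero _ h1) (pow_ne_zero _ hxa))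
  · intro x hx v hv
    have hren : ∀ G : MvPolynomial (Fin (N + 1)) ℂ, eval (xv x v) (rename Sum.inl G) = eval x G := by
      intro G
      rw [eval_rename]
      rfl
    simp only [map_mul, map_pow, hren, eval_X]
    by_cases hxa : x a = 0
    · rw [hxa]
      ring
    by_cases hJ : eval x J' = 0
    · rw [hJ]
      ring
    have hJw : eval (wa a x) d.J ≠ 0 := by
      intro h
      rw [hJ', eval_hmz' _ hxa, h, mul_zero] at hJ
      exact hJ rfl
    have h1 := p.val_eq hP hz hx (hsm x hx) hv (p.isVal_of_rep hz d hW hA hx hxa hJw v)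
    rw [h1, det_tau d hxa v, hJ', hA', eval_hmz' _ hxa, eval_hmz' _ hxa]
    generalize eval (xv x v) (Matrix.of fun l j => tnum d a l j).det = T
    generalize eval (wa a x) d.J = Jw at hJw
    generalize eval (wa a x) A₀ = Aw
    have h2 : (((x a ^ 2)⁻¹) ^ (k + 1)) ^ M * x a ^ (2 * (k + 1) * M) = 1 := by
      rw [← pow_mul, inv_pow, ← pow_mul, mul_assoc]
      exact inv_mul_cancel₀ (pow_ne_zero _ hxa)
    rw [mul_pow T, hq, pow_add, pow_add, pow_one, mul_pow (x a ^ d.J.totalDegree) Jw e]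
    have h3 : x a * (x a)⁻¹ = 1 := mul_inv_cancel₀ hxa
    have h4 : Jw ^ e * (Jw ^ e)⁻¹ = 1 := mul_inv_cancel₀ (pow_ne_zero _ hJw)
    calc x a * (x a ^ d.J.totalDegree * Jw) * ((x a ^ d.J.totalDegree) ^ e * Jw ^ e * (x a * x a ^ A₀.totalDegree * x a ^ (2 * (k + 1) * M))) *
          ((x a)⁻¹ * (Aw * (Jw ^ e)⁻¹ * (T ^ M * ((x a ^ 2)⁻¹ ^ (k + 1)) ^ M)))
        = x a * (x a ^ d.J.totalDegree * Jw) * ((x a ^ d.J.totalDegree) ^ e) * (Jw ^ e * (Jw ^ e)⁻¹) * (x a * (x a)⁻¹) * x a ^ A₀.totalDegree * Aw *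
          T ^ M * (((x a ^ 2)⁻¹ ^ (k + 1)) ^ M * x a ^ (2 * (k + 1) * M)) := by ring
      _ = x a * (x a ^ d.J.totalDegree * Jw) * (x a ^ A₀.totalDegree * Aw * x a ^ (d.J.totalDegree * e) * T ^ M) := by
        rw [h2, h3, h4, pow_mul]
        ring

/-- the ideal of the denominators -/
def Plc.den (p : Plc P (k + 1) M) : Ideal (MvPolynomial (Fin (N + 1)) ℂ) where
  carrier := {g | ∃ A : MvPolynomial (XV N (k + 1)) ℂ, ∀ x ∈ cone P, ∀ v : Fin (k + 1) → Fin (N + 1) → ℂ, (∀ l, v l ∈ conTan P x) →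
    eval x g * p.val x v = eval (xv x v) A}
  add_mem' := by
    rintro a b ⟨A, hA⟩ ⟨B, hB⟩
    refine ⟨A + B, fun x hx v hv => ?_⟩
    rw [map_add, map_add, add_mul, hA x hx v hv, hB x hx v hv]
  zero_mem' := ⟨0, fun x _ v _ => by rw [map_zero, map_zero, zero_mul]⟩
  smul_mem' := by
    rintro c a ⟨A, hA⟩
    refine ⟨rename Sum.inl c * A, fun x hx v hv => ?_⟩
    rw [smul_eq_mul, map_mul, map_mul, mul_assoc, hA x hx v hv, eval_rename]
    rfl

/-- **The section is given by polynomials.** -/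
theorem Plc.regular (p : Plc P (k + 1) M) (hP : Homog P) (hz : ∃ z : Fin (k + 1) → FunField P, IsTranscendenceBasis ℂ z)
    (hsm : ∀ x ∈ cone P, Module.finrank ℂ (conTan P x) ≤ k + 2) (i : Fin (N + 1)) :
    ∃ (e : ℕ) (A : MvPolynomial (XV N (k + 1)) ℂ), ∀ x ∈ cone P, ∀ v : Fin (k + 1) → Fin (N + 1) → ℂ, (∀ l, v l ∈ conTan P x) →
      x i ^ e * p.val x v = eval (xv x v) A := by
  have hrad : X i ∈ p.den.radical := by
    rw [← MvPolynomial.vanishingIdeal_zeroLocus_eq_radical (K := ℂ) p.den, MvPolynomial.mem_vanishingIdeal_iff]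
    intro x hx
    by_contra hne
    rw [aeval_X] at hne
    have hcone : x ∈ cone P := by
      refine ⟨fun h => hne (by rw [h]; rfl), fun Q hQ => ?_⟩
      have h1 : Q ∈ p.den := ⟨0, fun x' hx' v _ => by rw [hx'.2 Q hQ, map_zero, zero_mul]⟩
      have h2 := hx Q h1
      rwa [MvPolynomial.aeval_eq_eval] at h2
    have hiP : X i ∉ P := fun h => hne (by have := hcone.2 _ h; rwa [eval_X] at this)
    obtain ⟨d, hJ⟩ := exists_dat (ya P i) hz (adjoin_ya hz hiP) (finrank_tan hP hz hcone hne (hsm x hcone))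
    obtain ⟨g, A, hg, hA⟩ := p.exists_poly hP hz hsm hiP d
    have h2 := hx g ⟨A, hA⟩
    rw [MvPolynomial.aeval_eq_eval] at h2
    exact hg x hcone hne hJ h2
  obtain ⟨e, A, hA⟩ := hrad
  refine ⟨e, A, fun x hx v hv => ?_⟩
  rw [← hA x hx v hv, map_pow, eval_X]

end Pool.Agent.GG.Kd
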