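import Pool.Agent.GG.Kd.Chn
import Pool.Agent.H68.KR.EV
import Pool.Agent.H13.SM.Surf

/-!
# GG Kd Prj: the affine charts of a projective variety

`ya P a` is the generic point of the chart `x_a = 1` of the variety of `P`, `wa a x` the coordinates of the point `x` in this chart, `va a x v` those of the
tangent vector `v` at `x`.
-/

set_option autoImplicit false

open MvPolynomial
open Pool.Agent.H17LG.Variety (FunField ratio)
open Pool.Agent.H62.FC (Homog)
open Pool.Agent.H68.KR (hmz hmz_isHomogeneous exists_point coordFun_eq_zero_iff)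
open Pool.Agent.H13.SM (conTan cone)

noncomputable section

namespace Pool.Agent.GG.Kd

variable {N : ℕ} (P : Ideal (MvPolynomial (Fin (N + 1)) ℂ)) [P.IsPrime]

/-- the generic point of the chart `x_a = 1` -/
def ya (a i : Fin (N + 1)) : FunField P := ratio P i a

omit [P.IsPrime] in
/-- the coordinates of `x` in the chart `x_a = 1` -/
def wa (a : Fin (N + 1)) (x : Fin (N + 1) → ℂ) (i : Fin (N + 1)) : ℂ := x i / x a

/-- the coordinates of the tangent vector `v` at `x` in the chart `x_a = 1` -/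
def va (a : Fin (N + 1)) (x v : Fin (N + 1) → ℂ) (i : Fin (N + 1)) : ℂ := (v i * x a - x i * v a) / x a ^ 2

section Scale

variable {B : Type} [CommRing B] [Algebra ℂ B] {m : ℕ}

/-- scaling of a homogeneous polynomial -/
theorem aeval_scale {d : ℕ} {Q : MvPolynomial (Fin m) ℂ} (hQ : Q.IsHomogeneous d) (c : B) (y : Fin m → B) :
    aeval (fun i => c * y i) Q = c ^ d * aeval y Q := by
  rw [aeval_def, aeval_def, eval₂_eq, eval₂_eq, Finset.mul_sum]
  refine Finset.sum_congr rfl fun m hm => ?_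
  have h5 : ∑ i ∈ m.support, m i = d := by
    have := hQ (mem_support_iff.1 hm)
    rw [Finsupp.weight_apply, Finsupp.sum] at this
    simpa using this
  simp only [mul_pow, Finset.prod_mul_distrib]
  rw [Finset.prod_pow_eq_pow_sum, h5]
  ring

/-- homogenisation at a point with `X a` invertible -/
theorem aeval_hmz {l : Fin m} {n : ℕ} {G : MvPolynomial (Fin m) ℂ} (hn : G.totalDegree ≤ n) {y : Fin m → B} {u : B} (hu : y l * u = 1) :
    aeval y (hmz l n G) = y l ^ n * aeval (fun i => u * y i) G := by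
  have h1 : G = ∑ d ∈ Finset.range (n + 1), homogeneousComponent d G := by
    conv_lhs => rw [← MvPolynomial.sum_homogeneousComponent G]
    apply Finset.sum_subset
    · intro d hd
      rw [Finset.mem_range] at hd ⊢
      omega
    · intro d _ hd
      apply MvPolynomial.homogeneousComponent_eq_zero
      rw [Finset.mem_range] at hd
      omega
  have h2 : aeval (fun i => u * y i) G = ∑ d ∈ Finset.range (n + 1), u ^ d * aeval y (homogeneousComponent d G) := by
    conv_lhs => rw [h1]
    rw [map_sum]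
    exact Finset.sum_congr rfl fun d _ => aeval_scale (homogeneousComponent_isHomogeneous d G) u y
  rw [h2, hmz, map_sum, Finset.mul_sum]
  refine Finset.sum_congr rfl fun d hd => ?_
  have h4 : d ≤ n := Nat.lt_succ_iff.1 (Finset.mem_range.1 hd)
  rw [map_mul, map_pow, aeval_X]
  have h5 : y l ^ n * u ^ d = y l ^ (n - d) := by
    obtain ⟨e, rfl⟩ := Nat.exists_eq_add_of_le h4
    rw [Nat.add_sub_cancel_left, pow_add, mul_assoc, mul_comm (y l ^ e), ← mul_assoc, ← mul_pow, hu, one_pow, one_mul]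
  rw [← h5]
  ring

end Scale

variable {P} {k : ℕ}

/-- the generic point of the chart -/
theorem exists_gen (hz : ∃ z : Fin (k + 1) → FunField P, IsTranscendenceBasis ℂ z) {a : Fin (N + 1)} (ha : X a ∉ P) :
    ∃ x : Fin (N + 1) → FunField P, x a ≠ 0 ∧ IntermediateField.adjoin ℂ {y | ∃ i j, y = x i / x j} = ⊤ ∧
      (∀ (d : ℕ) (G : MvPolynomial (Fin (N + 1)) ℂ), G.IsHomogeneous d → (aeval x G = 0 ↔ G ∈ P)) ∧ ∀ i j, ratio P i j = x i / x j := by
  obtain ⟨z, hz⟩ := hz
  obtain ⟨x, -, h1, -, h2, h3, h4⟩ := exists_point P z hz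
  refine ⟨x, ?_, h1, h2, fun i j => (h4 i j).symm⟩
  intro h
  rw [h3, coordFun_eq_zero_iff] at h
  exact ha h

theorem adjoin_ya (hz : ∃ z : Fin (k + 1) → FunField P, IsTranscendenceBasis ℂ z) {a : Fin (N + 1)} (ha : X a ∉ P) :
    IntermediateField.adjoin ℂ (Set.range (ya P a)) = ⊤ := by
  obtain ⟨x, hxa, h1, -, h3⟩ := exists_gen hz ha
  rw [← top_le_iff, ← h1, IntermediateField.adjoin_le_iff]
  rintro y ⟨i, j, rfl⟩
  have hi : ∀ i, x i / x a ∈ IntermediateField.adjoin ℂ (Set.range (ya P a)) := fun i =>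
    IntermediateField.subset_adjoin _ _ ⟨i, h3 i a⟩
  have e : x i / x j = (x i / x a) / (x j / x a) := by
    by_cases hj : x j = 0
    · rw [hj, zero_div, div_zero, div_zero]
    · field_simp
  rw [e]
  exact div_mem (hi i) (hi j)

/-- the relations between the coordinates in the chart -/
theorem hmz_mem (hz : ∃ z : Fin (k + 1) → FunField P, IsTranscendenceBasis ℂ z) {a : Fin (N + 1)} (ha : X a ∉ P)
    {G : MvPolynomial (Fin (N + 1)) ℂ} {n : ℕ} (hn : G.totalDegree ≤ n) : aeval (ya P a) G = 0 ↔ hmz a n G ∈ P := by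
  obtain ⟨x, hxa, -, h2, h3⟩ := exists_gen hz ha
  rw [← h2 _ _ (hmz_isHomogeneous a n G), aeval_hmz hn (mul_inv_cancel₀ hxa)]
  have e : (fun i => (x a)⁻¹ * x i) = ya P a := by
    funext i
    rw [ya, h3, div_eq_inv_mul]
  rw [e]
  constructor
  · intro h
    rw [h, mul_zero]
  · intro h
    exact (mul_eq_zero.1 h).resolve_left (pow_ne_zero _ hxa)

theorem aeval_ya_mem (hP : Homog P) (hz : ∃ z : Fin (k + 1) → FunField P, IsTranscendenceBasis ℂ z) {a : Fin (N + 1)} (ha : X a ∉ P)
    {Q : MvPolynomial (Fin (N + 1)) ℂ} (hQ : Q ∈ P) : aeval (ya P a) Q = 0 := by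
  obtain ⟨x, hxa, -, h2, h3⟩ := exists_gen hz ha
  have e : (fun i => (x a)⁻¹ * x i) = ya P a := by
    funext i
    rw [ya, h3, div_eq_inv_mul]
  rw [← MvPolynomial.sum_homogeneousComponent Q, map_sum]
  refine Finset.sum_eq_zero fun d _ => ?_
  rw [← e, aeval_scale (homogeneousComponent_isHomogeneous d Q), (h2 d _ (homogeneousComponent_isHomogeneous d Q)).2 (hP Q hQ d), mul_zero]

theorem homog_ya_mem (hz : ∃ z : Fin (k + 1) → FunField P, IsTranscendenceBasis ℂ z) {a : Fin (N + 1)} (ha : X a ∉ P)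
    {Q : MvPolynomial (Fin (N + 1)) ℂ} {d : ℕ} (hQ : Q.IsHomogeneous d) (h : aeval (ya P a) Q = 0) : Q ∈ P := by
  obtain ⟨x, hxa, -, h2, h3⟩ := exists_gen hz ha
  have e : (fun i => (x a)⁻¹ * x i) = ya P a := by
    funext i
    rw [ya, h3, div_eq_inv_mul]
  rw [← e, aeval_scale hQ] at h
  exact (h2 d Q hQ).1 ((mul_eq_zero.1 h).resolve_left (pow_ne_zero _ (inv_ne_zero hxa)))

section Point

variable {B : Type} [CommRing B] [Algebra ℂ B]

/-- The points of the variety with coordinates in `B`. -/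
theorem isPtB_of (hz : ∃ z : Fin (k + 1) → FunField P, IsTranscendenceBasis ℂ z) {a : Fin (N + 1)} (ha : X a ∉ P) {Z : Fin (N + 1) → B}
    (hZ : ∀ Q ∈ P, aeval Z Q = 0) {u : B} (hu : Z a * u = 1) : IsPtB (ya P a) fun i => u * Z i := by
  intro G hG
  have h1 := hZ _ ((hmz_mem hz ha (le_refl G.totalDegree)).1 hG)
  rw [aeval_hmz (le_refl _) hu] at h1
  have h2 : IsUnit (Z a ^ G.totalDegree) := (IsUnit.of_mul_eq_one u hu).pow _
  exact h2.mul_right_eq_zero.1 h1

/-- the change of the chart -/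
theorem ev_chart [Nontrivial B] (hz : ∃ z : Fin (k + 1) → FunField P, IsTranscendenceBasis ℂ z) {a b : Fin (N + 1)} (ha : X a ∉ P) (hb : X b ∉ P)
    {Z : Fin (N + 1) → B} (hZ : ∀ Q ∈ P, aeval Z Q = 0) {u u' : B} (hu : Z a * u = 1) (hu' : Z b * u' = 1) (i : Fin (N + 1)) :
    Ev (ya P a) (fun i => u * Z i) (ya P b i) (u' * Z i) := by
  obtain ⟨x, hxa, -, h2, h3⟩ := exists_gen hz ha
  have hxb : x b ≠ 0 := by
    intro h
    have h4 := (h2 1 (X b) (isHomogeneous_X ℂ b)).1 (by rw [aeval_X, h])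
    exact hb h4
  have e : ya P b i = ya P a i / ya P a b := by
    unfold ya
    rw [h3, h3, h3]
    field_simp
  rw [e]
  have h4 := (Ev.var (ya P a) (fun i => u * Z i) i).div (isPtB_of hz ha hZ hu) (Ev.var (ya P a) (fun i => u * Z i) b)
    (e' := Z a * u') (by
      calc u * Z b * (Z a * u') = (Z a * u) * (Z b * u') := by ring
        _ = 1 := by rw [hu, hu', one_mul])
  have e2 : u * Z i * (Z a * u') = u' * Z i := by
    calc u * Z i * (Z a * u') = (Z a * u) * (u' * Z i) := by ring
      _ = u' * Z i := by rw [hu, one_mul]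
  rwa [e2] at h4

end Point

/-- the points `x + ε v` -/
theorem aeval_dp_mem {x v : Fin (N + 1) → ℂ} (hx : x ∈ cone P) (hv : v ∈ conTan P x) {Q : MvPolynomial (Fin (N + 1)) ℂ} (hQ : Q ∈ P) :
    aeval (dp x v) Q = 0 := by
  rw [aeval_dp, hx.2 Q hQ]
  have h1 : dpl x v Q = 0 := by
    have := hv Q hQ
    unfold dpl
    rw [← this]
    exact Finset.sum_congr rfl fun j _ => mul_comm _ _
  rw [h1]
  simp

/-- the inverse of `x_a + ε v_a` -/
def ua (a : Fin (N + 1)) (x v : Fin (N + 1) → ℂ) : DualNumber ℂ := TrivSqZeroExt.inl (x a)⁻¹ + TrivSqZeroExt.inr (-(v a / x a ^ 2))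

theorem ua_spec {a : Fin (N + 1)} {x : Fin (N + 1) → ℂ} (ha : x a ≠ 0) (v : Fin (N + 1) → ℂ) : dp x v a * ua a x v = 1 := by
  ext
  · simp [dp, ua, ha]
  · simp [dp, ua, TrivSqZeroExt.snd_mul]
    field_simp
    ring

theorem ua_mul {a : Fin (N + 1)} {x : Fin (N + 1) → ℂ} (ha : x a ≠ 0) (v : Fin (N + 1) → ℂ) (i : Fin (N + 1)) :
    ua a x v * dp x v i = dp (wa a x) (va a x v) i := by
  ext
  · simp [dp, ua, wa]
    field_simp
  · simp [dp, ua, va, TrivSqZeroExt.snd_mul]
    field_simp
    ring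

theorem isPtB_wv (hz : ∃ z : Fin (k + 1) → FunField P, IsTranscendenceBasis ℂ z) {a : Fin (N + 1)} {x v : Fin (N + 1) → ℂ} (hx : x ∈ cone P)
    (ha : x a ≠ 0) (hv : v ∈ conTan P x) : IsPtB (ya P a) (dp (wa a x) (va a x v)) := by
  have haP : X a ∉ P := fun h => ha (by have := hx.2 _ h; rwa [eval_X] at this)
  have h1 := isPtB_of hz haP (Z := dp x v) (fun Q hQ => aeval_dp_mem hx hv hQ) (ua_spec ha v)
  have e : (fun i => ua a x v * dp x v i) = dp (wa a x) (va a x v) := funext fun i => ua_mul ha v i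
  rwa [e] at h1

theorem isPt_wa (hz : ∃ z : Fin (k + 1) → FunField P, IsTranscendenceBasis ℂ z) {a : Fin (N + 1)} {x : Fin (N + 1) → ℂ} (hx : x ∈ cone P)
    (ha : x a ≠ 0) : IsPt (ya P a) (wa a x) :=
  (isPtB_dp.1 (isPtB_wv hz hx ha (Submodule.zero_mem (conTan P x)))).1

theorem va_mem (hz : ∃ z : Fin (k + 1) → FunField P, IsTranscendenceBasis ℂ z) {a : Fin (N + 1)} {x v : Fin (N + 1) → ℂ} (hx : x ∈ cone P)
    (ha : x a ≠ 0) (hv : v ∈ conTan P x) : va a x v ∈ tan (ya P a) (wa a x) :=
  (isPtB_dp.1 (isPtB_wv hz hx ha hv)).2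

theorem ev_wv (hz : ∃ z : Fin (k + 1) → FunField P, IsTranscendenceBasis ℂ z) {a b : Fin (N + 1)} {x v : Fin (N + 1) → ℂ} (hx : x ∈ cone P)
    (ha : x a ≠ 0) (hb : x b ≠ 0) (hv : v ∈ conTan P x) (i : Fin (N + 1)) :
    Ev (ya P a) (dp (wa a x) (va a x v)) (ya P b i) (dp (wa b x) (va b x v) i) := by
  have haP : X a ∉ P := fun h => ha (by have := hx.2 _ h; rwa [eval_X] at this)
  have hbP : X b ∉ P := fun h => hb (by have := hx.2 _ h; rwa [eval_X] at this)
  have h1 := ev_chart hz haP hbP (Z := dp x v) (fun Q hQ => aeval_dp_mem hx hv hQ) (ua_spec ha v) (ua_spec hb v) i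
  have e : (fun i => ua a x v * dp x v i) = dp (wa a x) (va a x v) := funext fun i => ua_mul ha v i
  rw [e, ua_mul hb v i] at h1
  exact h1

theorem ev_w (hz : ∃ z : Fin (k + 1) → FunField P, IsTranscendenceBasis ℂ z) {a b : Fin (N + 1)} {x : Fin (N + 1) → ℂ} (hx : x ∈ cone P)
    (ha : x a ≠ 0) (hb : x b ≠ 0) (i : Fin (N + 1)) : Ev (ya P a) (wa a x) (ya P b i) (wa b x i) := by
  have h1 := (ev_wv hz hx ha hb (Submodule.zero_mem (conTan P x)) i).fst
  rwa [dp_fst] at h1

/-- The dimension of the tangent space in the chart. -/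
theorem finrank_tan (hP : Homog P) (hz : ∃ z : Fin (k + 1) → FunField P, IsTranscendenceBasis ℂ z) {a : Fin (N + 1)} {x : Fin (N + 1) → ℂ}
    (hx : x ∈ cone P) (ha : x a ≠ 0) {n : ℕ} (h : Module.finrank ℂ (conTan P x) ≤ n + 1) : Module.finrank ℂ (tan (ya P a) (wa a x)) ≤ n := by
  have haP : X a ∉ P := fun h => ha (by have := hx.2 _ h; rwa [eval_X] at this)
  -- the tangent vectors of the chart
  have hw := isPt_wa hz hx ha
  have hmem : ∀ ξ ∈ tan (ya P a) (wa a x), x a • ξ ∈ conTan P x := by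
    intro ξ hξ Q hQ
    have hpt : IsPtB (ya P a) (dp (wa a x) ξ) := isPtB_dp.2 ⟨hw, hξ⟩
    have h1 : ∀ d, dpl x (x a • ξ) (homogeneousComponent d Q) = 0 := by
      intro d
      have h2 := hpt _ (aeval_ya_mem hP hz haP (hP Q hQ d))
      have h3 := aeval_scale (homogeneousComponent_isHomogeneous d Q) (TrivSqZeroExt.inl (x a) : DualNumber ℂ) (dp (wa a x) ξ)
      rw [h2, mul_zero] at h3
      have e : (fun i => (TrivSqZeroExt.inl (x a) : DualNumber ℂ) * dp (wa a x) ξ i) = dp x (x a • ξ) := by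
        funext i
        ext
        · simp [dp, wa]
          field_simp
        · simp [dp, TrivSqZeroExt.snd_mul]
      rw [e] at h3
      rw [← snd_aeval_dp, h3]
      rfl
    have h2 : dpl x (x a • ξ) Q = 0 := by
      have h3 : dpl x (x a • ξ) (∑ d ∈ Finset.range (Q.totalDegree + 1), homogeneousComponent d Q) =
          ∑ d ∈ Finset.range (Q.totalDegree + 1), dpl x (x a • ξ) (homogeneousComponent d Q) := by
        induction Finset.range (Q.totalDegree + 1) using Finset.induction_on with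
        | empty =>
          rw [Finset.sum_empty, Finset.sum_empty]
          unfold dpl
          simp
        | insert c s hc ih => rw [Finset.sum_insert hc, Finset.sum_insert hc, dpl_add, ih]
      rw [MvPolynomial.sum_homogeneousComponent] at h3
      rw [h3]
      exact Finset.sum_eq_zero fun d _ => h1 d
    rw [← h2]
    unfold dpl
    exact Finset.sum_congr rfl fun j _ => mul_comm _ _
  -- the Euler vector
  have hE : x ∈ conTan P x := by
    intro Q hQ
    have h1 : ∀ d, dpl x x (homogeneousComponent d Q) = 0 := by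
      intro d
      have h2 := (homogeneousComponent_isHomogeneous d Q).sum_X_mul_pderiv
      have h3 := congrArg (eval x) h2
      rw [map_sum, map_nsmul, hx.2 _ (hP Q hQ d), smul_zero] at h3
      rw [← h3]
      unfold dpl
      exact Finset.sum_congr rfl fun j _ => by rw [map_mul, eval_X, mul_comm]
    have h3 : dpl x x (∑ d ∈ Finset.range (Q.totalDegree + 1), homogeneousComponent d Q) =
        ∑ d ∈ Finset.range (Q.totalDegree + 1), dpl x x (homogeneousComponent d Q) := by
      induction Finset.range (Q.totalDegree + 1) using Finset.induction_on with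
      | empty =>
        rw [Finset.sum_empty, Finset.sum_empty]
        unfold dpl
        simp
      | insert c s hc ih => rw [Finset.sum_insert hc, Finset.sum_insert hc, dpl_add, ih]
    rw [MvPolynomial.sum_homogeneousComponent, Finset.sum_eq_zero fun d _ => h1 d] at h3
    rw [← h3]
    unfold dpl
    exact Finset.sum_congr rfl fun j _ => mul_comm _ _
  -- `ξ a = 0`
  have hxi : ∀ ξ ∈ tan (ya P a) (wa a x), ξ a = 0 := by
    intro ξ hξ
    have h1 : aeval (ya P a) (X a - 1 : MvPolynomial (Fin (N + 1)) ℂ) = 0 := by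
      obtain ⟨g, hga, -, -, h3⟩ := exists_gen hz haP
      rw [map_sub, aeval_X, map_one, ya, h3, div_self hga, sub_self]
    have h2 : dpl (wa a x) ξ (X a - 1) = 0 := hξ _ h1
    rw [sub_eq_add_neg, dpl_add, dpl_X, show (-1 : MvPolynomial (Fin (N + 1)) ℂ) = C (-1) by simp, dpl_C, add_zero] at h2
    exact h2
  let φ : (tan (ya P a) (wa a x)) × ℂ →ₗ[ℂ] conTan P x :=
    { toFun := fun p => ⟨x a • (p.1 : Fin (N + 1) → ℂ) + p.2 • x, add_mem (hmem _ p.1.2) (Submodule.smul_mem _ _ hE)⟩
      map_add' := by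
        intro p q
        apply Subtype.ext
        simp only [Prod.fst_add, Prod.snd_add, Submodule.coe_add, smul_add, add_smul]
        abel
      map_smul' := by
        intro c p
        apply Subtype.ext
        simp only [Prod.smul_fst, Prod.smul_snd, Submodule.coe_smul, smul_eq_mul, RingHom.id_apply, smul_add, smul_smul]
        congr 2
        ring }
  have hφ : Function.Injective φ := by
    rw [← LinearMap.ker_eq_bot, LinearMap.ker_eq_bot']
    rintro ⟨ξ, s⟩ h
    have h1 : x a • (ξ : Fin (N + 1) → ℂ) + s • x = 0 := congrArg Subtype.val h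
    have h2 := congrFun h1 a
    simp only [Pi.add_apply, Pi.smul_apply, smul_eq_mul, hxi _ ξ.2, mul_zero, zero_add, Pi.zero_apply] at h2
    have hs : s = 0 := (mul_eq_zero.1 h2).resolve_right ha
    rw [hs, zero_smul, add_zero] at h1
    have h3 : (ξ : Fin (N + 1) → ℂ) = 0 := (smul_eq_zero.1 h1).resolve_left ha
    rw [hs]
    exact Prod.ext (Subtype.ext h3) rfl
  have h1 := LinearMap.finrank_le_finrank_of_injective hφ
  rw [Module.finrank_prod, Module.finrank_self] at h1
  omega

end Pool.Agent.GG.Kd
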