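import Pool.Agent.GG.Kd.Defs

/-!
# GG Kd Stub: the statements of the modules Tr, Int, Lin, Gch, Drv of GG/Kod

(GG/Kod: a smooth projective variety of general type, of any dimension, has a section of `K^M (-1)`.)
STUB, never to be imported by a finished file: every theorem below is to be proved in its own file (same name, same statement, same namespace); a file may
import this stub only until the modules it uses are landed.
-/

set_option autoImplicit false

open MvPolynomial
open Pool.Agent.H23.Fano (Form regularForms PrimeDivisorOver)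
open Pool.Agent.H17LG.Variety (PoleAtMost)

noncomputable section

namespace Pool.Agent.GG.Kd

/-! ## Tr (file Kd/Tr.lean, import Mathlib only) -/

/-- Divided differences.  (Induction on `G`; for a product `G (Y) H (Y) - G (Y') H (Y') = G (Y) (H (Y) - H (Y')) + H (Y') (G (Y) - G (Y'))`.) -/
theorem exists_diff {r : ℕ} (G : MvPolynomial (Fin r) ℂ) : ∃ q : Fin r → MvPolynomial (Fin r ⊕ Fin r) ℂ,
    rename Sum.inl G - rename Sum.inr G = ∑ j, (X (Sum.inl j) - X (Sum.inr j)) * q j ∧
      ∀ j, aeval (Sum.elim X X : Fin r ⊕ Fin r → MvPolynomial (Fin r) ℂ) (q j) = pderiv j G := by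
  sorry

/-- `J c ∈ ℂ[t, y]` for all `c` integral over `ℂ[t]`.  Let `F = ℂ(t)`, `D = det (q_ij) ∈ ℂ[Y, Y']` with the divided differences `q_ij` of `G_i`.  For an
embedding `σ` of `K` over `F` into an algebraic closure: `(y_j - σ y_j) D (y, σ y) = 0` for all `j` by Cramer's rule, because `G_i (y) = G_i (σ y)`; so
`D (y, σ y) = 0` if `σ` is not the inclusion, and it is `J (y)` for the inclusion.  Write `D = ∑ D_α (Y) Y'^α`; then
`J c = ∑_σ σ (c) D (y, σ y) = ∑_α D_α (y) Tr (c y^α)` and `Tr (c y^α) ∈ ℂ[t]` (integral over `ℂ[t]`, which is integrally closed: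
`Algebra.isIntegral_trace`, `trace_eq_sum_embeddings`). -/
theorem trace_lemma {K : Type} [Field K] [Algebra ℂ K] {n r : ℕ} {t : Fin n → K} (ht : IsTranscendenceBasis ℂ t) (y : Fin r → K)
    (hy : ∀ i, IsIntegral (Algebra.adjoin ℂ (Set.range t)) (y i)) (hgen : IntermediateField.adjoin ℂ (Set.range t ∪ Set.range y) = ⊤)
    (G : Fin r → MvPolynomial (Fin r) ℂ) (hG : ∀ i, aeval y (G i) ∈ Algebra.adjoin ℂ (Set.range t)) {c : K}
    (hc : IsIntegral (Algebra.adjoin ℂ (Set.range t)) c) :
    aeval y (Matrix.det fun i j => pderiv j (G i)) * c ∈ Algebra.adjoin ℂ (Set.range t ∪ Set.range y) := by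
  sorry

/-! ## Int (file Kd/Int.lean, import Mathlib and H23.Fano) -/

/-- If `c` is regular along all prime divisors over `Spec ℂ[t]` which are finite over a hypersurface of it, then it is integral over `ℂ[t]`.
`R = ℂ[t]` is a unique factorisation domain.  Let `f` be a prime element of `R`, `R_f` its local ring (a discrete valuation ring), `S` the integral closure of
`R_f` in `K`: a Dedekind domain (`integralClosure.isDedekindDomain`, see `H13/CV/DedeA.lean` for the same with one variable).  If `c ∉ S`, there is a height one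
prime `v` of `S` with `v (c) > 1` (`IsDedekindDomain.HeightOneSpectrum.mem_integers_of_valuation_le_one`).  It gives `E : PrimeDivisorOver K n`; `residue_trdeg`:
all variables `t_i` except one which occurs in `f`.  So `c` is integral over `R_f` for all `f`, the coefficients of its minimal polynomial over `ℂ(t)` are in
all `R_f`, so in `R`. -/
theorem isIntegral_of_ord {K : Type} [Field K] [Algebra ℂ K] {n : ℕ} {t : Fin n → K} (ht : IsTranscendenceBasis ℂ t)
    (hfin : FiniteDimensional (IntermediateField.adjoin ℂ (Set.range t)) K) {c : K}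
    (h : ∀ E : PrimeDivisorOver K n, (∀ b, IsIntegral (Algebra.adjoin ℂ (Set.range t)) b → 0 ≤ E.ord b) →
      (∀ b, 0 ≤ E.ord b → ∃ b₁ b₂, IsIntegral (Algebra.adjoin ℂ (Set.range t)) b₁ ∧ IsIntegral (Algebra.adjoin ℂ (Set.range t)) b₂ ∧
        E.ord b₂ = 0 ∧ b * b₂ = b₁) → 0 ≤ E.ord c) :
    IsIntegral (Algebra.adjoin ℂ (Set.range t)) c := by
  sorry

variable {K : Type} [Field K] [Algebra ℂ K] {r k : ℕ}

/-! ## Lin (file Kd/Lin.lean, import Kd.Defs) -/

/-- Noether normalisation by linear forms, injective on a subspace `T` of dimension `≤ k` (the tangent space at a smooth point).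
Descending induction on `m`: there are `m` linear forms `t_1, …, t_m` in `y`, injective on `T`, with all `y i` integral over `ℂ[t_1, …, t_m]` (`m = r`: the
coordinates; if `r ≤ k` add zero forms).  Step (`m > k`): `t_1, …, t_m` are algebraically dependent: `g (t) = 0`, `g ≠ 0`, let `g_d` be the homogeneous part of
`g` of highest degree.  The image of `T` in `ℂ^m` is a proper subspace (`finrank T ≤ k < m`), let `h ≠ 0` be a linear form vanishing on it; choose `w` with
`g_d (w) h (w) ≠ 0`, and replace the map `t : ℂ^r → ℂ^m` by `π ∘ t`, `π : ℂ^m → ℂ^(m-1)` linear and onto with kernel `ℂ w`: with a linear form `a`, `a (w) = 1`,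
and a section `s` of `π`, `u = a (u) w + s (π u)`, the equation `g (a (t) w + s (π t)) = 0` for `a (t)` has the leading coefficient `g_d (w) ≠ 0` over
`ℂ[π t]`. -/
theorem exists_lin (y : Fin r → K) (hK : ∃ z : Fin k → K, IsTranscendenceBasis ℂ z) (T : Submodule ℂ (Fin r → ℂ)) (hT : Module.finrank ℂ T ≤ k) :
    ∃ L : Fin k → Fin r → ℂ, (∀ v ∈ T, (∀ j, ∑ i, L j i * v i = 0) → v = 0) ∧
      ∀ i, IsIntegral (Algebra.adjoin ℂ (Set.range fun j => aeval y (lf (L j)))) (y i) := by
  sorry

/-! ## Gch (file Kd/Gch.lean, import Kd.Defs, Kd.Lin) -/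

/-- At a smooth point `w` there is a linear Noether normalisation with `J (w) ≠ 0`.  `exists_lin` for `T = tan y w`: the linear forms `L j` and the
differentials `(∂_i G (w))_i`, `aeval y G = 0`, have no common zero in `ℂ^r` except `0`, so they span the dual space, and `r` of them form a basis.
`K` is algebraic over `ℂ(t)`, because `K = ℂ(y)`, and `k` is the transcendence degree, so `t` is a transcendence basis. -/
theorem exists_dat (y : Fin r → K) (hK : ∃ z : Fin k → K, IsTranscendenceBasis ℂ z) (hgen : IntermediateField.adjoin ℂ (Set.range y) = ⊤)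
    {w : Fin r → ℂ} (hs : Module.finrank ℂ (tan y w) ≤ k) : ∃ d : Dat y k, eval w d.J ≠ 0 := by
  sorry

/-! ## Drv (file Kd/Drv.lean, imports Kd.Defs, Kd.Tr, Kd.Int) -/

/-- `J D a ∈ ℂ[y]` for `a ∈ ℂ[y]`, if `D (t j) ∈ ℂ[y]`: apply `D` to `G i (y)` (which is `t j` or `0`) and use Cramer's rule for `D (y j)`. -/
theorem Dat.der_mem {y : Fin r → K} (d : Dat y k) (D : Derivation ℂ K K) (hD : ∀ j, D (d.t j) ∈ Algebra.adjoin ℂ (Set.range y)) {a : K}
    (ha : a ∈ Algebra.adjoin ℂ (Set.range y)) : aeval y d.J * D a ∈ Algebra.adjoin ℂ (Set.range y) := by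
  sorry

/-- A form `H (W dt)^M` which is regular along all prime divisors with `y i` in the local ring is regular where `J ≠ 0`.
Let `E` be a prime divisor as in `isIntegral_of_ord`, `∂_j` the derivation of `K` dual to `dt_j` (`H23.dualDer`, `H23.exists_basis_kaehler`).  For `b` integral
over `ℂ[t]`: `J b ∈ ℂ[y]` (`trace_lemma`), so `J ∂_j (J b) ∈ ℂ[y]` and `J^2 ∂_j b = J ∂_j (J b) - b J ∂_j J` has order `≥ 0` along `E`; the same for
`b = b₁ / b₂` in the local ring of `E`.  So `η = u dt`, `ord (J^(2k) u) ≥ 0` for every regular form `η` (`H23.fc`, `H23.fc_ιMulti`: determinants of the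
`∂_j b_i`).  If `W dt = g η` with `ord (H g^M) ≥ 0`, then `W = g u` and `ord (J^(2kM) H W^M) ≥ 0`.  By `isIntegral_of_ord` `J^(2kM) H W^M` is integral over
`ℂ[t]`, and by `trace_lemma` `J^(2kM+1) H W^M ∈ ℂ[y]`. -/
theorem Dat.reg {y : Fin r → K} (d : Dat y k) (hgen : IntermediateField.adjoin ℂ (Set.range y) = ⊤) {M : ℕ} {H W : K}
    (h : ∀ E : PrimeDivisorOver K k, (∀ i, 0 ≤ E.ord (y i)) → PoleAtMost 0 E M H (Form.mk W d.t)) :
    aeval y d.J ^ (2 * k * M + 1) * (H * W ^ M) ∈ Algebra.adjoin ℂ (Set.range y) := by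
  sorry

end Pool.Agent.GG.Kd
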